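import Mathlib

/-!
Counting small subsets and almost invariant subsets of a finite set.
-/

namespace Pool.Agent.P.MP_6ea370_an

open Finset Equiv

/-- There are at most `exp (η n)` subsets of size at most `δ n`. -/
theorem small_sets (η : ℝ) (hη : 0 < η) : ∃ δ : ℝ, 0 < δ ∧
    ∀ (K : Type) [Fintype K] [DecidableEq K],
      ((univ.filter fun D : Finset K => (D.card : ℝ) ≤ δ * Fintype.card K).card : ℝ) ≤
        Real.exp (η * Fintype.card K) := by
  -- choose `x ∈ (0, 1)` with `x ≤ η / 2`
  set x : ℝ := min (η / 2) (1 / 2) with hx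
  have hx0 : 0 < x := lt_min (by linarith) (by norm_num)
  have hx1 : x < 1 := (min_le_right _ _).trans_lt (by norm_num)
  have hx2 : x ≤ η / 2 := min_le_left _ _
  have hlog : 0 < -Real.log x := by
    have := Real.log_neg hx0 hx1
    linarith
  refine ⟨η / 2 / (-Real.log x), by positivity, fun K _ _ => ?_⟩
  set n : ℝ := (Fintype.card K : ℝ) with hn
  have hn0 : 0 ≤ n := by positivity
  set T := univ.filter fun D : Finset K => (D.card : ℝ) ≤ η / 2 / (-Real.log x) * n with hT
  have h1 : ∑ D : Finset K, x ^ D.card = (1 + x) ^ Fintype.card K := by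
    have := Finset.prod_one_add (f := fun _ : K => x) univ
    simp only [prod_const, card_univ, powerset_univ] at this
    exact this.symm
  have h2 : (T.card : ℝ) * Real.exp (-(η / 2 * n)) ≤ ∑ D : Finset K, x ^ D.card := by
    calc (T.card : ℝ) * Real.exp (-(η / 2 * n)) = ∑ _D ∈ T, Real.exp (-(η / 2 * n)) := by
          simp
      _ ≤ ∑ D ∈ T, x ^ D.card := by
          apply sum_le_sum
          intro D hD
          simp only [T, mem_filter, mem_univ, true_and] at hD
          rw [← Real.exp_log hx0, ← Real.exp_nat_mul]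
          apply Real.exp_le_exp.2
          have h3 : (D.card : ℝ) * (-Real.log x) ≤ η / 2 / (-Real.log x) * n * (-Real.log x) :=
            mul_le_mul_of_nonneg_right hD hlog.le
          have h4 : η / 2 / (-Real.log x) * n * (-Real.log x) = η / 2 * n := by
            have h5 : Real.log x ≠ 0 := by linarith
            field_simp
          linarith
      _ ≤ _ := sum_le_sum_of_subset_of_nonneg (subset_univ _) fun _ _ _ => by positivity
  have h3 : (1 + x) ^ Fintype.card K ≤ Real.exp (η / 2 * n) := by
    calc (1 + x) ^ Fintype.card K ≤ (Real.exp (η / 2)) ^ Fintype.card K := by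
          apply pow_le_pow_left₀ (by linarith)
          have := Real.add_one_le_exp (η / 2)
          linarith
      _ = _ := by rw [← Real.exp_nat_mul, mul_comm]
  have h4 : (T.card : ℝ) * Real.exp (-(η / 2 * n)) ≤ Real.exp (η / 2 * n) := by
    rw [← h1] at h3; exact h2.trans h3
  have h5 : Real.exp (η * n) = Real.exp (η / 2 * n) * Real.exp (η / 2 * n) := by
    rw [← Real.exp_add]; congr 1; ring
  rw [Real.exp_neg, ← div_eq_mul_inv, div_le_iff₀ (Real.exp_pos _)] at h4
  rw [h5]; exact h4

variable {K : Type} [Fintype K] [DecidableEq K]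

/-- The set of points at which `S` fails to be invariant under `τ`. -/
def bdry (τ : Perm K) (S : Finset K) : Finset K := univ.filter fun k => ¬ (k ∈ S ↔ τ k ∈ S)

/-- The fixed points of a permutation. -/
def fixs (τ : Perm K) : Finset K := univ.filter fun k => τ k = k

/-- A small set meeting every orbit. -/
lemma exists_transversal (τ : Perm K) (L : ℕ) :
    ∃ R : Finset K, (∀ k, ∃ r ∈ R, ∃ j : ℕ, (τ ^ j) r = k) ∧
      R.card * L ≤ (∑ j ∈ Finset.Ioo 0 L, (fixs (τ ^ j)).card) * L + Fintype.card K := by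
  classical
  let rep : K → K := fun k => (Quotient.mk (Perm.SameCycle.setoid τ) k).out
  have hrep : ∀ k, τ.SameCycle (rep k) k := fun k =>
    Quotient.mk_out (s := Perm.SameCycle.setoid τ) k
  have hrep2 : ∀ k k', τ.SameCycle k k' → rep k = rep k' := fun k k' h => by
    have : Quotient.mk (Perm.SameCycle.setoid τ) k = Quotient.mk (Perm.SameCycle.setoid τ) k' :=
      Quotient.sound h
    simp only [rep, this]
  let R := univ.image rep
  let U := (Finset.Ioo 0 L).biUnion fun j => fixs (τ ^ j)
  refine ⟨R, fun k => ⟨rep k, mem_image_of_mem _ (mem_univ _), ?_⟩, ?_⟩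
  · obtain ⟨j, _, hj⟩ := (hrep k).exists_pow_eq'
    exact ⟨j, hj⟩
  · have h1 : (R \ U).card * L ≤ Fintype.card K := by
      rw [← card_range L, ← card_product, ← card_univ]
      apply card_le_card_of_injOn (fun p => (τ ^ p.2) p.1)
      · intro p _; simp
      · have aux : ∀ (r : K) (i j : ℕ), r ∉ U → i < j → j < L → (τ ^ i) r ≠ (τ ^ j) r := by
          intro r i j hr hij hj h
          apply hr
          simp only [U, mem_biUnion, mem_Ioo, fixs, mem_filter, mem_univ, true_and]
          refine ⟨j - i, ⟨by omega, by omega⟩, ?_⟩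
          apply (τ ^ i).injective
          rw [← Perm.mul_apply, ← pow_add, Nat.add_sub_cancel' hij.le, h]
        rintro ⟨r, i⟩ hp ⟨r', j⟩ hq h
        simp only [coe_product, coe_sdiff, Set.mem_prod, Set.mem_sdiff, mem_coe,
          mem_range] at hp hq h
        have hrr : r = r' := by
          obtain ⟨k, _, rfl⟩ := mem_image.1 hp.1.1
          obtain ⟨k', _, rfl⟩ := mem_image.1 hq.1.1
          apply hrep2
          have e1 : τ.SameCycle (rep k) ((τ ^ i) (rep k)) := ⟨i, by simp⟩
          have e2 : τ.SameCycle (rep k') ((τ ^ j) (rep k')) := ⟨j, by simp⟩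
          rw [h] at e1
          exact (hrep k).symm.trans (e1.trans (e2.symm.trans (hrep k')))
        subst hrr
        have hij : i = j := by
          rcases lt_trichotomy i j with h1 | h1 | h1
          · exact absurd h (aux r i j hp.1.2 h1 hq.2)
          · exact h1
          · exact absurd h.symm (aux r j i hp.1.2 h1 hp.2)
        rw [hij]
    have h2 : R.card ≤ U.card + (R \ U).card := by
      have := le_card_sdiff U R
      omega
    have h3 : U.card ≤ ∑ j ∈ Finset.Ioo 0 L, (fixs (τ ^ j)).card := card_biUnion_le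
    calc R.card * L ≤ (U.card + (R \ U).card) * L := Nat.mul_le_mul_right _ h2
      _ = U.card * L + (R \ U).card * L := by ring
      _ ≤ _ := Nat.add_le_add (Nat.mul_le_mul_right _ h3) h1

lemma card_almost_inv_le (τ : Perm K) (R : Finset K)
    (hR : ∀ k, ∃ r ∈ R, ∃ j : ℕ, (τ ^ j) r = k) (d : ℝ) :
    (univ.filter fun S : Finset K => ((bdry τ S).card : ℝ) ≤ d).card ≤
      2 ^ R.card * (univ.filter fun D : Finset K => (D.card : ℝ) ≤ d).card := by
  rw [← card_powerset, ← card_product]
  apply card_le_card_of_injOn (fun S => (S ∩ R, bdry τ S))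
  · intro S hS
    simp only [coe_filter, mem_univ, true_and, Set.mem_ofPred_eq] at hS
    simp [hS]
  · intro S _ S' _ h
    simp only [Prod.mk.injEq] at h
    obtain ⟨e1, e2⟩ := h
    ext k
    obtain ⟨r, hr, j, rfl⟩ := hR k
    induction j with
    | zero =>
      have : r ∈ S ∩ R ↔ r ∈ S' ∩ R := by rw [e1]
      simpa [hr] using this
    | succ j ih =>
      have : (τ ^ j) r ∈ bdry τ S ↔ (τ ^ j) r ∈ bdry τ S' := by rw [e2]
      simp only [bdry, mem_filter, mem_univ, true_and] at this
      rw [pow_succ', Perm.mul_apply]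
      tauto

/-- A permutation with few points on short cycles has few almost invariant sets. -/
theorem almost_inv_count (η : ℝ) (hη : 0 < η) : ∃ (δ θ : ℝ) (L : ℕ), 0 < δ ∧ 0 < θ ∧
    ∀ (K : Type) [Fintype K] [DecidableEq K] (τ : Perm K),
      (∀ j ∈ Finset.Ioo 0 L, ((fixs (τ ^ j)).card : ℝ) ≤ θ * Fintype.card K) →
      ((univ.filter fun S : Finset K =>
          ((bdry τ S).card : ℝ) ≤ δ * Fintype.card K).card : ℝ) ≤
        Real.exp (η * Fintype.card K) := by
  obtain ⟨δ, hδ, hsmall⟩ := small_sets (η / 2) (by linarith)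
  obtain ⟨L, hL⟩ := exists_nat_gt (4 / η)
  have hL0 : (0 : ℝ) < L := lt_trans (by positivity) hL
  refine ⟨δ, η / 4 / L, L, hδ, by positivity, fun K _ _ τ hτ => ?_⟩
  set n : ℝ := (Fintype.card K : ℝ) with hn
  have hn0 : 0 ≤ n := by positivity
  obtain ⟨R, hR1, hR2⟩ := exists_transversal τ L
  have h1 : ((∑ j ∈ Finset.Ioo 0 L, (fixs (τ ^ j)).card : ℕ) : ℝ) ≤ η / 4 * n := by
    push_cast
    calc ∑ j ∈ Finset.Ioo 0 L, ((fixs (τ ^ j)).card : ℝ)
        ≤ (Finset.Ioo 0 L).card • (η / 4 / L * n) := sum_le_card_nsmul _ _ _ hτ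
      _ = ((L - 1 : ℕ) : ℝ) * (η / 4 / L * n) := by simp
      _ ≤ (L : ℝ) * (η / 4 / L * n) := by
          apply mul_le_mul_of_nonneg_right _ (by positivity)
          exact_mod_cast Nat.sub_le L 1
      _ = η / 4 * n := by field_simp
  have h2 : (R.card : ℝ) ≤ η / 2 * n := by
    have h3 : (R.card : ℝ) * L ≤
        ((∑ j ∈ Finset.Ioo 0 L, (fixs (τ ^ j)).card : ℕ) : ℝ) * L + n := by
      rw [hn]; exact_mod_cast hR2
    have h4 : n ≤ η / 4 * n * L := by
      rw [div_lt_iff₀ hη] at hL
      nlinarith
    have h5 : (R.card : ℝ) * L ≤ η / 2 * n * L := by nlinarith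
    exact le_of_mul_le_mul_right h5 hL0
  have h3 : ((2 : ℝ)) ^ R.card ≤ Real.exp (η / 2 * n) := by
    calc ((2 : ℝ)) ^ R.card ≤ (Real.exp 1) ^ R.card := by
          apply pow_le_pow_left₀ (by norm_num)
          have := Real.add_one_le_exp (1 : ℝ)
          linarith
      _ = Real.exp (R.card) := by rw [← Real.exp_nat_mul, mul_one]
      _ ≤ _ := Real.exp_le_exp.2 h2
  have h4 := card_almost_inv_le τ R hR1 (δ * n)
  have h5 := hsmall K
  calc ((univ.filter fun S : Finset K => ((bdry τ S).card : ℝ) ≤ δ * n).card : ℝ)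
      ≤ (2 : ℝ) ^ R.card * (univ.filter fun D : Finset K => (D.card : ℝ) ≤ δ * n).card := by
        exact_mod_cast h4
    _ ≤ Real.exp (η / 2 * n) * Real.exp (η / 2 * n) :=
        mul_le_mul h3 h5 (by positivity) (by positivity)
    _ = _ := by rw [← Real.exp_add]; congr 1; ring

end Pool.Agent.P.MP_6ea370_an
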