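import Mathlib

/-!
Sofic approximations, shifts of finite type and sofic (topological) entropy, with the conventions
of the problem file.
-/

namespace Pool.Agent.P.MP_6ea370_an

open Filter Topology

/-- The proportion of the points `k` of a finite set `K` that satisfy `p k`. -/
noncomputable def proportion {K : Type} (p : K → Prop) : ℝ :=
  (Nat.card {k : K // p k} : ℝ) / (Nat.card K : ℝ)

/-- A sofic approximation of `G`: maps `π n : G → sym (K n)`, `K n` finite, asymptotically
multiplicative and asymptotically free. -/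
def IsSoficApprox {G : Type} [Group G] (K : ℕ → Type) (π : ∀ n, G → Equiv.Perm (K n)) : Prop :=
  (∀ n, Finite (K n)) ∧
  (∀ s t : G, Tendsto (fun n => proportion fun k : K n => π n (s * t) k = π n s (π n t k))
    atTop (𝓝 1)) ∧
  (∀ s : G, s ≠ 1 → Tendsto (fun n => proportion fun k : K n => π n s k ≠ k) atTop (𝓝 1))

/-- The shift action `(t x)_s = x_{t⁻¹ s}`. -/
def shift {G A : Type} [Group G] (t : G) (x : G → A) : G → A := fun s => x (t⁻¹ * s)

/-- `X` is a shift of finite type: it is defined by a finite set `P` of forbidden patterns, a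
pattern being a finite set `F ⊆ G` with an element of `A^F`. -/
def IsSFT {G A : Type} [Group G] (X : Set (G → A)) : Prop :=
  ∃ P : Set (Σ F : Finset G, (F → A)), P.Finite ∧
    X = {x | ∀ t : G, ∀ p ∈ P, (fun s : p.1 => shift t x s) ≠ p.2}

/-- The language `L_F(X) = {x|_F : x ∈ X}`. -/
def lang {G A : Type} (X : Set (G → A)) (F : Finset G) : Set (F → A) :=
  (fun (x : G → A) (s : F) => x s) '' X

/-- `Ω(F, δ)`: the maps `ω : K → A` such that for at least `(1 - δ) |K|` points `k` the pattern
`(ω (π s⁻¹ k))_{s ∈ F}` lies in `L_F(X)`. -/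
def microstates {G A K : Type} [Group G] (X : Set (G → A)) (π : G → Equiv.Perm K) (F : Finset G)
    (δ : ℝ) : Set (K → A) :=
  {ω | (1 - δ) * (Nat.card K : ℝ) ≤
    (Nat.card {k : K // (fun s : F => ω (π (s : G)⁻¹ k)) ∈ lang X F} : ℝ)}

/-- The sofic entropy `inf_F inf_{δ > 0} limsup_n |K n|⁻¹ log |Ω_n(F, δ)|`, computed in the extended
reals, with `log 0 = -∞` (`ENNReal.log 0 = ⊥`). -/
noncomputable def soficEntropy {G A : Type} [Group G] (K : ℕ → Type)
    (π : ∀ n, G → Equiv.Perm (K n)) (X : Set (G → A)) : EReal :=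
  ⨅ (F : Finset G) (δ : ℝ) (_ : 0 < δ), limsup (fun n : ℕ =>
    (((Nat.card (K n) : ℝ)⁻¹ : ℝ) : EReal) *
      ENNReal.log (Nat.card (microstates X (π n) F δ) : ENNReal)) atTop

end Pool.Agent.P.MP_6ea370_an
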