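import Mathlib

/-!
Switching arguments for uniformly random permutations.

* `card_fix_word_le`: a nontrivial reduced word in independent uniform permutations fixes a given
  point with probability at most `l^2 / (n - l)`.
* `card_avoid_le`: a uniform permutation maps `W` outside `S` with probability at most
  `(1 - |S| / n) ^ |W|`.
-/

namespace Pool.Agent.P.MP_6ea370_an

open Finset Equiv

variable {ι K : Type} [DecidableEq ι] [DecidableEq K]

/-- The permutation attached to a letter. -/
def step (σ : ι → Perm K) (x : ι × Bool) : Perm K := cond x.2 (σ x.1) (σ x.1)⁻¹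

/-- Evaluation of a word at a point. -/
def ev (σ : ι → Perm K) (L : List (ι × Bool)) (k : K) : K := (L.map (step σ)).prod k

/-- The points visited by the path of a word. -/
def pts (σ : ι → Perm K) (k : K) : List (ι × Bool) → Finset K
  | [] => {k}
  | x :: L => insert (ev σ (x :: L) k) (pts σ k L)

/-- The path of the word never returns to a visited point. -/
def Simple (σ : ι → Perm K) (k : K) : List (ι × Bool) → Prop
  | [] => True
  | x :: L => Simple σ k L ∧ ev σ (x :: L) k ∉ pts σ k L

/-- The switch of the permutation of the letter `x` along the transposition `(y t)`. -/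
def switch (σ : ι → Perm K) (x : ι × Bool) (y t : K) : ι → Perm K :=
  Function.update σ x.1 (cond x.2 (swap y t * σ x.1) (σ x.1 * swap y t))

omit [DecidableEq ι] [DecidableEq K] in
@[simp] lemma ev_nil (σ : ι → Perm K) (k : K) : ev σ [] k = k := by simp [ev]

omit [DecidableEq ι] [DecidableEq K] in
lemma ev_cons (σ : ι → Perm K) (x : ι × Bool) (L : List (ι × Bool)) (k : K) :
    ev σ (x :: L) k = step σ x (ev σ L k) := by simp [ev]

omit [DecidableEq ι] in
lemma card_pts_le (σ : ι → Perm K) (k : K) (L : List (ι × Bool)) :
    (pts σ k L).card ≤ L.length + 1 := by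
  induction L with
  | nil => simp [pts]
  | cons x L ih =>
    simp only [pts, List.length_cons]
    exact (card_insert_le _ _).trans (by omega)

omit [DecidableEq ι] in
lemma ev_mem_pts (σ : ι → Perm K) (k : K) {M L : List (ι × Bool)} (h : M <:+ L) :
    ev σ M k ∈ pts σ k L := by
  induction L with
  | nil =>
    have : M = [] := List.eq_nil_of_suffix_nil h
    subst this
    simp [pts]
  | cons x L ih =>
    rcases List.suffix_cons_iff.1 h with h | h
    · subst h; simp [pts]
    · simp only [pts]; exact mem_insert_of_mem (ih h)

lemma switch_switch (σ : ι → Perm K) (x : ι × Bool) (y t : K) :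
    switch (switch σ x y t) x y t = σ := by
  obtain ⟨i, c⟩ := x
  funext j
  by_cases hj : j = i
  · subst hj
    cases c
    · simp [switch, mul_assoc]
    · simp [switch, ← mul_assoc]
  · simp [switch, hj]

lemma step_switch_self (σ : ι → Perm K) (x : ι × Bool) (y t : K) :
    step (switch σ x y t) x = swap y t * step σ x := by
  obtain ⟨i, c⟩ := x
  cases c <;> simp [switch, step]

lemma step_switch_inv (σ : ι → Perm K) (x : ι × Bool) (y t : K) :
    step (switch σ x y t) (x.1, !x.2) = step σ (x.1, !x.2) * swap y t := by
  obtain ⟨i, c⟩ := x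
  cases c <;> simp [switch, step]

lemma step_switch_ne (σ : ι → Perm K) (x z : ι × Bool) (y t : K) (h : z.1 ≠ x.1) :
    step (switch σ x y t) z = step σ z := by
  simp [switch, step, h]

omit [DecidableEq ι] [DecidableEq K] in
lemma step_inv_step (σ : ι → Perm K) (x : ι × Bool) (p : K) :
    step σ (x.1, !x.2) (step σ x p) = p := by
  obtain ⟨i, c⟩ := x
  cases c <;> simp [step]

omit [DecidableEq ι] in
lemma agree (σ σ' : ι → Perm K) (k : K) (M : List (ι × Bool))
    (h : ∀ z M', z :: M' <:+ M → step σ' z (ev σ M' k) = step σ z (ev σ M' k)) :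
    ev σ' M k = ev σ M k ∧ pts σ' k M = pts σ k M := by
  induction M with
  | nil => simp [pts]
  | cons x M ih =>
    have ih' := ih fun z M' hz => h z M' (hz.trans (List.suffix_cons x M))
    have h1 : ev σ' (x :: M) k = ev σ (x :: M) k := by
      rw [ev_cons, ev_cons, ih'.1]
      exact h x M (List.suffix_refl _)
    exact ⟨h1, by simp only [pts, h1, ih'.2]⟩

/-- Switching the last step of a simple path does not change the earlier steps. -/
lemma agree_switch (σ : ι → Perm K) (k : K) (x : ι × Bool) (L : List (ι × Bool))
    (hred : FreeGroup.IsReduced (x :: L)) (hs : Simple σ k L) (t : K) (ht : t ∉ pts σ k L) :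
    ev (switch σ x (ev σ (x :: L) k) t) L k = ev σ L k ∧
      pts (switch σ x (ev σ (x :: L) k) t) k L = pts σ k L := by
  apply agree
  intro z M' hz
  -- `L` is nonempty
  obtain ⟨z0, L0, rfl⟩ : ∃ z0 L0, L = z0 :: L0 := by
    cases L with
    | nil => exact absurd (List.eq_nil_of_suffix_nil hz) (by simp)
    | cons z0 L0 => exact ⟨z0, L0, rfl⟩
  have hp : ev σ (z0 :: L0) k ∉ pts σ k L0 := hs.2
  have hM' : M' <:+ L0 := by
    rcases List.suffix_cons_iff.1 hz with h | h
    · rw [List.cons.injEq] at h; rw [h.2]
    · exact (List.suffix_cons z M').trans h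
  have hne : ev σ M' k ≠ ev σ (z0 :: L0) k := fun h => hp (h ▸ ev_mem_pts σ k hM')
  by_cases h1 : z.1 = x.1
  · by_cases h2 : z.2 = x.2
    · have hzx : z = x := Prod.ext h1 h2
      subst hzx
      rw [step_switch_self, Perm.mul_apply, swap_apply_of_ne_of_ne]
      · rw [ev_cons σ z (z0 :: L0)]
        exact fun h => hne ((step σ z).injective h)
      · intro h
        apply ht
        rw [← h, ← ev_cons]
        exact ev_mem_pts σ k hz
    · have hzx : z = (x.1, !x.2) := by
        refine Prod.ext h1 ?_
        simp only
        cases hz2 : z.2 <;> cases hx2 : x.2 <;> simp_all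
      subst hzx
      rw [step_switch_inv, Perm.mul_apply, swap_apply_of_ne_of_ne]
      · intro h
        have h3 : ev σ ((x.1, !x.2) :: M') k = ev σ (z0 :: L0) k := by
          rw [ev_cons, h, ev_cons σ x (z0 :: L0), step_inv_step]
        rcases List.suffix_cons_iff.1 hz with h4 | h4
        · rw [List.cons.injEq] at h4
          have h5 := (FreeGroup.isReduced_cons_cons.1 hred).1
          rw [← h4.1] at h5
          simp at h5
        · exact hp (h3 ▸ ev_mem_pts σ k h4)
      · intro h
        apply ht
        rw [← h]
        exact ev_mem_pts σ k (hM'.trans (List.suffix_cons z0 L0))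
  · rw [step_switch_ne _ _ _ _ _ h1]

variable [Fintype ι] [Fintype K]

open Classical in
/-- The first return happens at the last step with small probability. -/
lemma card_last_return (k : K) (x : ι × Bool) (L : List (ι × Bool))
    (hred : FreeGroup.IsReduced (x :: L)) :
    (univ.filter fun σ : ι → Perm K =>
        Simple σ k L ∧ ev σ (x :: L) k ∈ pts σ k L).card * (Fintype.card K - (L.length + 1)) ≤
      Fintype.card (ι → Perm K) * (L.length + 1) := by
  set E := univ.filter fun σ : ι → Perm K => Simple σ k L ∧ ev σ (x :: L) k ∈ pts σ k L with hE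
  let A : Finset (Σ _ : ι → Perm K, K) := E.sigma fun σ => (pts σ k L)ᶜ
  let B : Finset (Σ _ : ι → Perm K, K) := univ.sigma fun σ => pts σ k L
  have hA : E.card * (Fintype.card K - (L.length + 1)) ≤ A.card := by
    rw [card_sigma, ← smul_eq_mul]
    apply card_nsmul_le_sum
    intro σ _
    rw [card_compl]
    have := card_pts_le σ k L
    omega
  have hB : B.card ≤ Fintype.card (ι → Perm K) * (L.length + 1) := by
    rw [card_sigma, ← smul_eq_mul, ← card_univ]
    apply sum_le_card_nsmul
    intro σ _
    exact card_pts_le σ k L
  refine hA.trans (le_trans ?_ hB)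
  have key : ∀ p ∈ A, ev (switch p.1 x (ev p.1 (x :: L) k) p.2) (x :: L) k = p.2 := by
    rintro ⟨σ, t⟩ hp
    simp only [A, E, mem_sigma, mem_filter, mem_univ, true_and, mem_compl] at hp
    have h := agree_switch σ k x L hred hp.1.1 t hp.2
    simp only
    rw [ev_cons, h.1, step_switch_self, Perm.mul_apply, ← ev_cons, swap_apply_left]
  apply card_le_card_of_injOn
    (fun p => ⟨switch p.1 x (ev p.1 (x :: L) k) p.2, ev p.1 (x :: L) k⟩)
  · rintro ⟨σ, t⟩ hp
    simp only [A, E, coe_sigma, Set.mem_sigma_iff, mem_coe, mem_filter, mem_univ, true_and,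
      mem_compl] at hp
    have h := agree_switch σ k x L hred hp.1.1 t hp.2
    simp only [B, coe_sigma, Set.mem_sigma_iff, mem_coe, mem_univ, true_and]
    rw [h.2]
    exact hp.1.2
  · intro p hp q hq hpq
    have k1 := key p hp
    have k2 := key q hq
    simp only [Sigma.mk.injEq, heq_eq_eq] at hpq
    obtain ⟨e1, e2⟩ := hpq
    have e3 : p.2 = q.2 := by rw [← k1, ← k2, e1]
    have e4 : p.1 = q.1 := by
      rw [← switch_switch p.1 x (ev p.1 (x :: L) k) p.2, e1, e2, e3, switch_switch]
    obtain ⟨p1, p2⟩ := p
    obtain ⟨q1, q2⟩ := q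
    simp only at e3 e4
    subst e3 e4
    rfl

open Classical in
lemma card_not_simple (k : K) (L : List (ι × Bool)) (hred : FreeGroup.IsReduced L) :
    (univ.filter fun σ : ι → Perm K => ¬ Simple σ k L).card * (Fintype.card K - L.length) ≤
      Fintype.card (ι → Perm K) * L.length ^ 2 := by
  induction L with
  | nil => simp [Simple]
  | cons x L ih =>
    have hred' : FreeGroup.IsReduced L := List.IsChain.tail hred
    have h1 := ih hred'
    have h2 := card_last_return (K := K) k x L hred
    have h3 : (univ.filter fun σ : ι → Perm K => ¬ Simple σ k (x :: L)).card ≤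
        (univ.filter fun σ : ι → Perm K => ¬ Simple σ k L).card +
        (univ.filter fun σ : ι → Perm K =>
          Simple σ k L ∧ ev σ (x :: L) k ∈ pts σ k L).card := by
      refine le_trans (card_le_card ?_) (card_union_le _ _)
      intro σ hσ
      simp only [mem_filter, mem_univ, true_and, mem_union, Simple] at hσ ⊢
      tauto
    simp only [List.length_cons]
    have h4 : (univ.filter fun σ : ι → Perm K => ¬ Simple σ k L).card *
        (Fintype.card K - (L.length + 1)) ≤ Fintype.card (ι → Perm K) * L.length ^ 2 :=
      le_trans (Nat.mul_le_mul_left _ (by omega)) h1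
    calc _ ≤ ((univ.filter fun σ : ι → Perm K => ¬ Simple σ k L).card +
        (univ.filter fun σ : ι → Perm K =>
          Simple σ k L ∧ ev σ (x :: L) k ∈ pts σ k L).card) *
          (Fintype.card K - (L.length + 1)) := Nat.mul_le_mul_right _ h3
      _ ≤ Fintype.card (ι → Perm K) * L.length ^ 2 +
          Fintype.card (ι → Perm K) * (L.length + 1) := by
        rw [add_mul]; exact Nat.add_le_add h4 h2
      _ ≤ _ := by
        rw [← mul_add]
        exact Nat.mul_le_mul_left _ (by nlinarith)

/-- A nontrivial element of the free group fixes a given point with small probability. -/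
theorem card_fix_word_le (k : K) (w : FreeGroup ι) (hw : w ≠ 1) :
    (univ.filter fun σ : ι → Perm K => FreeGroup.lift σ w k = k).card *
        (Fintype.card K - w.toWord.length) ≤
      Fintype.card (ι → Perm K) * w.toWord.length ^ 2 := by
  classical
  refine le_trans (Nat.mul_le_mul_right _ (card_le_card ?_))
    (card_not_simple k w.toWord FreeGroup.isReduced_toWord)
  intro σ hσ
  simp only [mem_filter, mem_univ, true_and] at hσ ⊢
  have h1 : ev σ w.toWord k = k := by
    rw [← hσ]
    conv_rhs => rw [← FreeGroup.mk_toWord (x := w), FreeGroup.lift_mk]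
    rw [hσ]
    rfl
  intro hs
  cases hL : w.toWord with
  | nil => exact hw (FreeGroup.toWord_eq_nil_iff.1 hL)
  | cons x L =>
    rw [hL] at hs h1
    apply hs.2
    rw [h1]
    simpa using ev_mem_pts σ k (List.nil_suffix (l := L))

omit [DecidableEq ι] [Fintype ι] in
/-- One step of the avoidance estimate. -/
lemma card_avoid_step (S W : Finset K) (k : K) (hk : k ∉ W) :
    (univ.filter fun π : Perm K => ∀ w ∈ insert k W, π w ∉ S).card * Fintype.card K ≤
      (univ.filter fun π : Perm K => ∀ w ∈ W, π w ∉ S).card * (Fintype.card K - S.card) := by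
  set A := univ.filter fun π : Perm K => ∀ w ∈ insert k W, π w ∉ S with hA
  set A' := univ.filter fun π : Perm K => (∀ w ∈ W, π w ∉ S) ∧ π k ∈ S with hA'
  have h0 : (univ.filter fun π : Perm K => ∀ w ∈ W, π w ∉ S).card = A.card + A'.card := by
    rw [← card_union_of_disjoint]
    · congr 1
      ext π
      simp only [A, A', mem_filter, mem_univ, true_and, mem_union, forall_mem_insert]
      tauto
    · rw [disjoint_left]
      intro π h1 h2
      simp only [A, A', mem_filter, mem_univ, true_and, forall_mem_insert] at h1 h2
      exact h1.1 h2.2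
  have h1 : A.card * S.card ≤ A'.card * (Fintype.card K - S.card) := by
    rw [← card_compl, ← card_product, ← card_product]
    apply card_le_card_of_injOn (fun p => (swap (p.1 k) p.2 * p.1, p.1 k))
    · rintro ⟨π, t⟩ hp
      simp only [A, coe_product, Set.mem_prod, mem_coe, mem_filter, mem_univ, true_and,
        forall_mem_insert] at hp
      simp only [A', coe_product, Set.mem_prod, mem_coe, mem_filter, mem_univ, true_and,
        mem_compl, Perm.mul_apply, swap_apply_left]
      refine ⟨⟨fun w hw => ?_, hp.2⟩, hp.1.1⟩
      rw [swap_apply_of_ne_of_ne]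
      · exact hp.1.2 w hw
      · intro h
        exact hk (π.injective h ▸ hw)
      · intro h
        exact hp.1.2 w hw (h ▸ hp.2)
    · rintro ⟨π, t⟩ _ ⟨π', t'⟩ _ h
      simp only [Prod.mk.injEq] at h
      obtain ⟨e1, e2⟩ := h
      have e3 : t = t' := by
        have := congrArg (fun f : Perm K => f k) e1
        simpa using this
      subst e3
      rw [e2] at e1
      rw [mul_left_cancel e1]
  have h2 : S.card ≤ Fintype.card K := card_le_univ S
  rw [h0, add_mul]
  calc A.card * Fintype.card K = A.card * (Fintype.card K - S.card) + A.card * S.card := by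
        rw [← mul_add]; congr 1; omega
    _ ≤ _ := Nat.add_le_add_left h1 _

omit [DecidableEq ι] [Fintype ι] in
/-- A uniform permutation maps `W` outside `S` with probability at most `(1 - |S|/n)^|W|`. -/
theorem card_avoid_le (S W : Finset K) :
    (univ.filter fun π : Perm K => ∀ w ∈ W, π w ∉ S).card * Fintype.card K ^ W.card ≤
      Fintype.card (Perm K) * (Fintype.card K - S.card) ^ W.card := by
  induction W using Finset.induction_on with
  | empty => simp
  | insert k W hk ih =>
    rw [card_insert_of_notMem hk, pow_succ, pow_succ]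
    have h := card_avoid_step S W k hk
    calc _ = ((univ.filter fun π : Perm K => ∀ w ∈ insert k W, π w ∉ S).card * Fintype.card K) *
          Fintype.card K ^ W.card := by ring
      _ ≤ ((univ.filter fun π : Perm K => ∀ w ∈ W, π w ∉ S).card *
          (Fintype.card K - S.card)) * Fintype.card K ^ W.card := Nat.mul_le_mul_right _ h
      _ = ((univ.filter fun π : Perm K => ∀ w ∈ W, π w ∉ S).card * Fintype.card K ^ W.card) *
          (Fintype.card K - S.card) := by ring
      _ ≤ (Fintype.card (Perm K) * (Fintype.card K - S.card) ^ W.card) *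
          (Fintype.card K - S.card) := Nat.mul_le_mul_right _ ih
      _ = _ := by ring

end Pool.Agent.P.MP_6ea370_an
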