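import Mathlib
import Pool.Agent.P.MP_6ea370_an.Switch
import Pool.Agent.P.MP_6ea370_an.Count

/-!
Existence of a sequence of tuples of permutations which is asymptotically free and admits no large
set that is almost invariant under the generator `b` and almost independent under the generator `a`.
-/

namespace Pool.Agent.P.MP_6ea370_an

open Finset Equiv Filter

open Classical in
/-- Diagonal selection: countably many properties holding with high probability hold eventually
along one sequence. -/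
theorem diag {I : Type} [Countable I] [Nonempty I] (T : ℕ → Type) [∀ n, Fintype (T n)]
    [∀ n, Nonempty (T n)] (Q : I → ∀ n, T n → Prop)
    (hQ : ∀ i, ∀ γ : ℝ, 0 < γ → ∀ᶠ n in atTop,
      ((univ.filter fun σ : T n => ¬ Q i n σ).card : ℝ) ≤ γ * Fintype.card (T n)) :
    ∃ σ : ∀ n, T n, ∀ i, ∀ᶠ n in atTop, Q i n (σ n) := by
  obtain ⟨e, he⟩ := exists_surjective_nat I
  let good : ℕ → ℕ → Prop := fun n J => ∃ σ : T n, ∀ j ≤ J, Q (e j) n σ
  have h1 : ∀ J, ∀ᶠ n in atTop, good n J := by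
    intro J
    have h2 : ∀ᶠ n in atTop, ∀ j ∈ Finset.range (J + 1),
        ((univ.filter fun σ : T n => ¬ Q (e j) n σ).card : ℝ) ≤
          1 / ((J : ℝ) + 2) * Fintype.card (T n) :=
      (Finset.eventually_all _).2 fun j _ => hQ (e j) _ (by positivity)
    filter_upwards [h2] with n hn
    by_contra hc
    have h3 : (univ : Finset (T n)) ⊆ (Finset.range (J + 1)).biUnion fun j =>
        univ.filter fun σ : T n => ¬ Q (e j) n σ := by
      intro σ _
      simp only [good, not_exists, not_forall] at hc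
      obtain ⟨j, hj, hj'⟩ := hc σ
      simp only [mem_biUnion, mem_range, mem_filter, mem_univ, true_and]
      exact ⟨j, by omega, hj'⟩
    have h4 : (Fintype.card (T n) : ℝ) ≤ ∑ j ∈ Finset.range (J + 1),
        ((univ.filter fun σ : T n => ¬ Q (e j) n σ).card : ℝ) := by
      exact_mod_cast (card_le_card h3).trans card_biUnion_le
    have h5 := sum_le_card_nsmul _ _ _ hn
    have h6 : (0 : ℝ) < Fintype.card (T n) := by exact_mod_cast Fintype.card_pos
    simp only [card_range, nsmul_eq_mul, Nat.cast_add, Nat.cast_one] at h5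
    have h7 : ((J : ℝ) + 1) * (1 / ((J : ℝ) + 2) * Fintype.card (T n)) < Fintype.card (T n) := by
      rw [← mul_assoc]
      apply mul_lt_of_lt_one_left h6
      rw [mul_one_div, div_lt_one (by positivity)]
      linarith
    linarith
  have h2 : ∀ n, ∃ σ : T n, ∀ J ≤ n, good n J → ∀ j ≤ J, Q (e j) n σ := by
    intro n
    by_cases h : ∃ J ≤ n, good n J
    · obtain ⟨J0, hJ0, hJ1⟩ := h
      obtain ⟨σ, hσ⟩ := Nat.findGreatest_spec (P := good n) hJ0 hJ1
      exact ⟨σ, fun J hJ hJ' j hj => hσ j (hj.trans (Nat.le_findGreatest hJ hJ'))⟩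
    · exact ⟨Classical.arbitrary _, fun J hJ hJ' => absurd ⟨J, hJ, hJ'⟩ h⟩
  choose σ hσ using h2
  refine ⟨σ, fun i => ?_⟩
  obtain ⟨j, rfl⟩ := he i
  filter_upwards [h1 j, eventually_ge_atTop j] with n hn hn'
  exact hσ n j hn' hn j le_rfl

variable {ι : Type} [Fintype ι] [DecidableEq ι]

/-- Markov bound on the number of fixed points of a nontrivial word. -/
theorem free_whp (w : FreeGroup ι) (hw : w ≠ 1) (θ γ : ℝ) (hθ : 0 < θ) (hγ : 0 < γ) :
    ∀ᶠ n : ℕ in atTop, ((univ.filter fun σ : ι → Perm (Fin n) =>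
      ¬ (((fixs (FreeGroup.lift σ w)).card : ℝ) ≤ θ * n)).card : ℝ) ≤
        γ * Fintype.card (ι → Perm (Fin n)) := by
  set l := w.toWord.length with hl
  have h0 : ∀ᶠ n : ℕ in atTop, (l : ℝ) + (l : ℝ) ^ 2 / (θ * γ) + 1 ≤ n :=
    tendsto_natCast_atTop_atTop.eventually_ge_atTop _
  filter_upwards [h0] with n hn
  set Ω : ℝ := (Fintype.card (ι → Perm (Fin n)) : ℝ) with hΩ
  have hΩ0 : 0 ≤ Ω := by positivity
  have h1 : 0 ≤ (l : ℝ) ^ 2 / (θ * γ) := by positivity
  have hl0 : (0 : ℝ) ≤ l := by positivity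
  have hln : l ≤ n := by
    have : (l : ℝ) ≤ n := by linarith
    exact_mod_cast this
  have hn0 : (0 : ℝ) < n := by linarith
  set bad := univ.filter fun σ : ι → Perm (Fin n) =>
      ¬ (((fixs (FreeGroup.lift σ w)).card : ℝ) ≤ θ * n) with hbad
  have h2 : (bad.card : ℝ) * (θ * n) ≤
      ∑ σ : ι → Perm (Fin n), ((fixs (FreeGroup.lift σ w)).card : ℝ) := by
    calc (bad.card : ℝ) * (θ * n) = bad.card • (θ * n) := by simp
      _ ≤ ∑ σ ∈ bad, ((fixs (FreeGroup.lift σ w)).card : ℝ) := by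
          apply card_nsmul_le_sum
          intro σ hσ
          simp only [bad, mem_filter, mem_univ, true_and, not_le] at hσ
          exact hσ.le
      _ ≤ _ := sum_le_sum_of_subset_of_nonneg (subset_univ _) fun _ _ _ => by positivity
  have h3 : ∑ σ : ι → Perm (Fin n), (fixs (FreeGroup.lift σ w)).card =
      ∑ k : Fin n, (univ.filter fun σ : ι → Perm (Fin n) => FreeGroup.lift σ w k = k).card := by
    simp only [fixs, card_filter]
    exact sum_comm
  have h4 : ∀ k : Fin n, ((univ.filter fun σ : ι → Perm (Fin n) =>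
      FreeGroup.lift σ w k = k).card : ℝ) * ((n : ℝ) - l) ≤ Ω * (l : ℝ) ^ 2 := by
    intro k
    have := card_fix_word_le k w hw
    rw [Fintype.card_fin, ← hl] at this
    rw [← Nat.cast_sub hln, hΩ]
    exact_mod_cast this
  have h5 : (∑ σ : ι → Perm (Fin n), ((fixs (FreeGroup.lift σ w)).card : ℝ)) * ((n : ℝ) - l) ≤
      n * (Ω * (l : ℝ) ^ 2) := by
    have h3' : ∑ σ : ι → Perm (Fin n), ((fixs (FreeGroup.lift σ w)).card : ℝ) =
        ∑ k : Fin n, ((univ.filter fun σ : ι → Perm (Fin n) =>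
          FreeGroup.lift σ w k = k).card : ℝ) := by exact_mod_cast h3
    rw [h3', sum_mul]
    calc _ ≤ ∑ _k : Fin n, Ω * (l : ℝ) ^ 2 := sum_le_sum fun k _ => h4 k
      _ = _ := by simp
  have h6 : (0 : ℝ) < n - l := by linarith
  have h7 : (bad.card : ℝ) * (θ * n) * ((n : ℝ) - l) ≤ n * (Ω * (l : ℝ) ^ 2) :=
    (mul_le_mul_of_nonneg_right h2 h6.le).trans h5
  have h8 : (l : ℝ) ^ 2 ≤ θ * γ * ((n : ℝ) - l) := by
    have : (l : ℝ) ^ 2 / (θ * γ) ≤ (n : ℝ) - l := by linarith
    rwa [div_le_iff₀' (by positivity)] at this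
  have h9 : (bad.card : ℝ) * (θ * n * ((n : ℝ) - l)) ≤ γ * Ω * (θ * n * ((n : ℝ) - l)) := by
    calc _ = (bad.card : ℝ) * (θ * n) * ((n : ℝ) - l) := by ring
      _ ≤ n * (Ω * (l : ℝ) ^ 2) := h7
      _ ≤ n * (Ω * (θ * γ * ((n : ℝ) - l))) := by gcongr
      _ = _ := by ring
  exact le_of_mul_le_mul_right h9 (by positivity)

/-- Conditioning on all coordinates but one. -/
theorem card_cond {K : Type} [Fintype K] [DecidableEq K] (a : ι)
    (E : (ι → Perm K) → Finset (Perm K)) (hE : ∀ σ π, E (Function.update σ a π) = E σ) (q : ℝ)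
    (hq : ∀ σ, ((E σ).card : ℝ) ≤ q * Fintype.card (Perm K)) :
    ((univ.filter fun σ : ι → Perm K => σ a ∈ E σ).card : ℝ) ≤ q * Fintype.card (ι → Perm K) := by
  have h1 : (univ.filter fun σ : ι → Perm K => σ a ∈ E σ).card * Fintype.card (Perm K) ≤
      ∑ σ : ι → Perm K, (E σ).card := by
    rw [← card_sigma, ← card_univ, ← card_product]
    apply card_le_card_of_injOn (fun p => ⟨Function.update p.1 a p.2, p.1 a⟩)
    · rintro ⟨σ, π⟩ hp
      simp only [coe_product, Set.mem_prod, mem_coe, mem_filter, mem_univ, true_and,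
        and_true] at hp
      simp only [coe_sigma, Set.mem_sigma_iff, mem_coe, mem_univ, true_and, hE]
      exact hp
    · rintro ⟨σ, π⟩ _ ⟨σ', π'⟩ _ h
      simp only [Sigma.mk.injEq, heq_eq_eq] at h
      obtain ⟨e1, e2⟩ := h
      have e3 : π = π' := by simpa using congrFun e1 a
      have e4 : σ = σ' := by
        funext j
        by_cases hj : j = a
        · rw [hj, e2]
        · simpa [hj] using congrFun e1 j
      rw [e3, e4]
  have h2 : (0 : ℝ) < Fintype.card (Perm K) := by exact_mod_cast Fintype.card_pos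
  have h3 : ((univ.filter fun σ : ι → Perm K => σ a ∈ E σ).card : ℝ) * Fintype.card (Perm K) ≤
      q * Fintype.card (ι → Perm K) * Fintype.card (Perm K) := by
    calc _ ≤ ∑ σ : ι → Perm K, ((E σ).card : ℝ) := by exact_mod_cast h1
      _ ≤ ∑ _σ : ι → Perm K, q * Fintype.card (Perm K) := sum_le_sum fun σ _ => hq σ
      _ = _ := by simp only [sum_const, card_univ, nsmul_eq_mul]; ring
  exact le_of_mul_le_mul_right h3 h2

/-- Real form of the avoidance estimate. -/
theorem card_avoid_exp {K : Type} [Fintype K] [DecidableEq K] (S W : Finset K) (ε : ℝ)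
    (hε : 0 < ε) (hS : ε * Fintype.card K < S.card) (hW : ε / 2 * Fintype.card K ≤ W.card) :
    ((univ.filter fun π : Perm K => ∀ w ∈ W, π w ∉ S).card : ℝ) ≤
      Real.exp (-(ε ^ 2 / 2 * Fintype.card K)) * Fintype.card (Perm K) := by
  set n : ℝ := (Fintype.card K : ℝ) with hn
  have hsn : S.card ≤ Fintype.card K := card_le_univ S
  have hn0 : 0 ≤ n := by positivity
  have hs0 : (0 : ℝ) < S.card := lt_of_le_of_lt (by positivity) hS
  have hn1 : 0 < n := hs0.trans_le (by rw [hn]; exact_mod_cast hsn)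
  have h1 : ((univ.filter fun π : Perm K => ∀ w ∈ W, π w ∉ S).card : ℝ) * n ^ W.card ≤
      Fintype.card (Perm K) * (n - S.card) ^ W.card := by
    rw [hn, ← Nat.cast_sub hsn]
    exact_mod_cast card_avoid_le S W
  have h2 : n - S.card ≤ Real.exp (-ε) * n := by
    have := Real.add_one_le_exp (-ε)
    nlinarith
  have h3 : (n - S.card) ^ W.card ≤ Real.exp (-(ε ^ 2 / 2 * n)) * n ^ W.card := by
    have h4 : (0 : ℝ) ≤ n - S.card := by
      rw [hn, ← Nat.cast_sub hsn]; positivity
    calc (n - S.card) ^ W.card ≤ (Real.exp (-ε) * n) ^ W.card := pow_le_pow_left₀ h4 h2 _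
      _ = Real.exp (W.card * (-ε)) * n ^ W.card := by rw [mul_pow, Real.exp_nat_mul]
      _ ≤ _ := by
          apply mul_le_mul_of_nonneg_right _ (by positivity)
          apply Real.exp_le_exp.2
          nlinarith
  have h5 : ((univ.filter fun π : Perm K => ∀ w ∈ W, π w ∉ S).card : ℝ) * n ^ W.card ≤
      Real.exp (-(ε ^ 2 / 2 * n)) * Fintype.card (Perm K) * n ^ W.card := by
    calc _ ≤ Fintype.card (Perm K) * (n - S.card) ^ W.card := h1
      _ ≤ Fintype.card (Perm K) * (Real.exp (-(ε ^ 2 / 2 * n)) * n ^ W.card) := by gcongr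
      _ = _ := by ring
  exact le_of_mul_le_mul_right h5 (by positivity)

/-- `S` is invariant under `τ` and independent under `π` at every point outside `B`. -/
def Good {K : Type} (π τ : Perm K) (S B : Finset K) : Prop :=
  ∀ k ∉ B, (k ∈ S ↔ τ k ∈ S) ∧ (k ∈ S → π k ∉ S)

open Classical in
/-- For a fixed `τ` with few almost invariant sets, few `π` admit a large good set. -/
theorem card_bad_le {K : Type} [Fintype K] [DecidableEq K] (τ : Perm K) (ε δ : ℝ) (hε : 0 < ε)
    (hδ : δ ≤ ε / 2)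
    (h1 : ((univ.filter fun D : Finset K => (D.card : ℝ) ≤ δ * Fintype.card K).card : ℝ) ≤
      Real.exp (ε ^ 2 / 8 * Fintype.card K))
    (h2 : ((univ.filter fun S : Finset K =>
      ((bdry τ S).card : ℝ) ≤ δ * Fintype.card K).card : ℝ) ≤
        Real.exp (ε ^ 2 / 8 * Fintype.card K)) :
    ((univ.filter fun π : Perm K => ∃ S B : Finset K, (B.card : ℝ) ≤ δ * Fintype.card K ∧
      Good π τ S B ∧ ε * Fintype.card K < S.card).card : ℝ) ≤
      Real.exp (-(ε ^ 2 / 4 * Fintype.card K)) * Fintype.card (Perm K) := by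
  set n : ℝ := (Fintype.card K : ℝ) with hn
  have hn0 : 0 ≤ n := by positivity
  set P := (univ.filter fun S : Finset K => ((bdry τ S).card : ℝ) ≤ δ * n ∧ ε * n < S.card) ×ˢ
    (univ.filter fun D : Finset K => (D.card : ℝ) ≤ δ * n) with hP
  have hsub : (univ.filter fun π : Perm K => ∃ S B : Finset K, (B.card : ℝ) ≤ δ * n ∧
      Good π τ S B ∧ ε * n < S.card) ⊆
      P.biUnion fun p => univ.filter fun π : Perm K => ∀ w ∈ p.1 \ p.2, π w ∉ p.1 := by
    intro π hπ
    simp only [mem_filter, mem_univ, true_and] at hπ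
    obtain ⟨S, B, hB, hG, hS⟩ := hπ
    simp only [P, mem_biUnion, mem_product, mem_filter, mem_univ, true_and]
    refine ⟨(S, B), ⟨⟨le_trans ?_ hB, hS⟩, hB⟩,
      fun w hw => (hG w (mem_sdiff.1 hw).2).2 (mem_sdiff.1 hw).1⟩
    have : bdry τ S ⊆ B := by
      intro k hk
      simp only [bdry, mem_filter, mem_univ, true_and] at hk
      by_contra hkB
      exact hk (hG k hkB).1
    exact_mod_cast card_le_card this
  have hPc : (P.card : ℝ) ≤ Real.exp (ε ^ 2 / 8 * n) * Real.exp (ε ^ 2 / 8 * n) := by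
    rw [hP, card_product, Nat.cast_mul]
    apply mul_le_mul _ h1 (by positivity) (by positivity)
    refine le_trans ?_ h2
    have : (univ.filter fun S : Finset K => ((bdry τ S).card : ℝ) ≤ δ * n ∧ ε * n < S.card) ⊆
        (univ.filter fun S : Finset K => ((bdry τ S).card : ℝ) ≤ δ * n) := by
      intro S hS
      simp only [mem_filter, mem_univ, true_and] at hS ⊢
      exact hS.1
    exact_mod_cast card_le_card this
  have hterm : ∀ p ∈ P, ((univ.filter fun π : Perm K => ∀ w ∈ p.1 \ p.2, π w ∉ p.1).card : ℝ) ≤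
      Real.exp (-(ε ^ 2 / 2 * n)) * Fintype.card (Perm K) := by
    rintro ⟨S, B⟩ hp
    simp only [P, mem_product, mem_filter, mem_univ, true_and] at hp
    apply card_avoid_exp S (S \ B) ε hε hp.1.2
    have h3 : (S.card : ℝ) ≤ (S \ B).card + B.card := by
      have := le_card_sdiff B S
      have h4 : S.card ≤ (S \ B).card + B.card := by omega
      exact_mod_cast h4
    have h5 : δ * n ≤ ε / 2 * n := mul_le_mul_of_nonneg_right hδ hn0
    have h6 := hp.1.2
    have h7 := hp.2
    rw [← hn]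
    linarith
  calc _ ≤ ∑ p ∈ P, ((univ.filter fun π : Perm K => ∀ w ∈ p.1 \ p.2, π w ∉ p.1).card : ℝ) := by
        exact_mod_cast (card_le_card hsub).trans card_biUnion_le
    _ ≤ P.card • (Real.exp (-(ε ^ 2 / 2 * n)) * Fintype.card (Perm K)) :=
        sum_le_card_nsmul _ _ _ hterm
    _ ≤ (Real.exp (ε ^ 2 / 8 * n) * Real.exp (ε ^ 2 / 8 * n)) *
          (Real.exp (-(ε ^ 2 / 2 * n)) * Fintype.card (Perm K)) := by
        rw [nsmul_eq_mul]
        exact mul_le_mul_of_nonneg_right hPc (by positivity)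
    _ = _ := by
        rw [← mul_assoc, ← Real.exp_add, ← Real.exp_add]
        congr 2
        ring

open Classical in
/-- The random model: asymptotically free, with no large good set. -/
theorem exists_model (a b : ι) (hab : a ≠ b) : ∃ σ : ∀ n : ℕ, ι → Perm (Fin n),
    (∀ w : FreeGroup ι, w ≠ 1 → ∀ θ : ℝ, 0 < θ → ∀ᶠ n : ℕ in atTop,
      ((fixs (FreeGroup.lift (σ n) w)).card : ℝ) ≤ θ * n) ∧
    (∀ ε : ℝ, 0 < ε → ∃ δ : ℝ, 0 < δ ∧ ∀ᶠ n : ℕ in atTop, ∀ S B : Finset (Fin n),
      (B.card : ℝ) ≤ δ * n → Good (σ n a) (σ n b) S B → (S.card : ℝ) ≤ ε * n) := by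
  -- constants for each `ε = 1 / (m + 1)`
  have hc : ∀ m : ℕ, ∃ (δ θ : ℝ) (L : ℕ), 0 < δ ∧ 0 < θ ∧ δ ≤ 1 / ((m : ℝ) + 1) / 2 ∧
      (∀ n : ℕ, ((univ.filter fun D : Finset (Fin n) =>
        (D.card : ℝ) ≤ δ * Fintype.card (Fin n)).card : ℝ) ≤
          Real.exp ((1 / ((m : ℝ) + 1)) ^ 2 / 8 * Fintype.card (Fin n))) ∧
      (∀ (n : ℕ) (τ : Perm (Fin n)),
        (∀ j ∈ Finset.Ioo 0 L, ((fixs (τ ^ j)).card : ℝ) ≤ θ * Fintype.card (Fin n)) →
        ((univ.filter fun S : Finset (Fin n) =>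
          ((bdry τ S).card : ℝ) ≤ δ * Fintype.card (Fin n)).card : ℝ) ≤
          Real.exp ((1 / ((m : ℝ) + 1)) ^ 2 / 8 * Fintype.card (Fin n))) := by
    intro m
    obtain ⟨δ1, hδ1, h1⟩ := small_sets ((1 / ((m : ℝ) + 1)) ^ 2 / 8) (by positivity)
    obtain ⟨δ2, θ, L, hδ2, hθ, h2⟩ := almost_inv_count ((1 / ((m : ℝ) + 1)) ^ 2 / 8) (by positivity)
    refine ⟨min (min δ1 δ2) (1 / ((m : ℝ) + 1) / 2), θ, L, by positivity, hθ, min_le_right _ _,
      fun n => le_trans ?_ (h1 (Fin n)), fun n τ hτ => le_trans ?_ (h2 (Fin n) τ hτ)⟩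
    · have : min (min δ1 δ2) (1 / ((m : ℝ) + 1) / 2) ≤ δ1 := (min_le_left _ _).trans (min_le_left _ _)
      refine Nat.cast_le.2 (card_le_card fun D hD => ?_)
      simp only [mem_filter, mem_univ, true_and] at hD ⊢
      exact hD.trans (mul_le_mul_of_nonneg_right this (by positivity))
    · have : min (min δ1 δ2) (1 / ((m : ℝ) + 1) / 2) ≤ δ2 :=
        (min_le_left _ _).trans (min_le_right _ _)
      refine Nat.cast_le.2 (card_le_card fun D hD => ?_)
      simp only [mem_filter, mem_univ, true_and] at hD ⊢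
      exact hD.trans (mul_le_mul_of_nonneg_right this (by positivity))
  choose δ θ L hδ hθ hδε hsm hai using hc
  let E : ∀ (m n : ℕ), Perm (Fin n) → Finset (Perm (Fin n)) := fun m n τ =>
    if ((univ.filter fun S : Finset (Fin n) =>
          ((bdry τ S).card : ℝ) ≤ δ m * Fintype.card (Fin n)).card : ℝ) ≤
          Real.exp ((1 / ((m : ℝ) + 1)) ^ 2 / 8 * Fintype.card (Fin n)) then
      univ.filter fun π : Perm (Fin n) => ∃ S B : Finset (Fin n),
        (B.card : ℝ) ≤ δ m * Fintype.card (Fin n) ∧ Good π τ S B ∧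
          1 / ((m : ℝ) + 1) * Fintype.card (Fin n) < S.card
    else ∅
  let Q : ({w : FreeGroup ι // w ≠ 1} × ℕ) ⊕ ℕ → ∀ n : ℕ, (ι → Perm (Fin n)) → Prop :=
    fun i n σ => match i with
      | Sum.inl p => ((fixs (FreeGroup.lift σ p.1.1)).card : ℝ) ≤ 1 / ((p.2 : ℝ) + 1) * n
      | Sum.inr m => σ a ∉ E m n (σ b)
  obtain ⟨σ, hσ⟩ := diag (fun n => ι → Perm (Fin n)) Q (by
    rintro (p | m) γ hγ
    · have := free_whp p.1.1 p.1.2 (1 / ((p.2 : ℝ) + 1)) γ (by positivity) hγ
      filter_upwards [this] with n hn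
      convert hn
    · have h0 : Tendsto (fun n : ℕ => Real.exp (-((1 / ((m : ℝ) + 1)) ^ 2 / 4 * n))) atTop
          (nhds 0) := by
        apply Real.tendsto_exp_neg_atTop_nhds_zero.comp
        exact tendsto_natCast_atTop_atTop.const_mul_atTop (by positivity)
      filter_upwards [h0.eventually_le_const hγ] with n hn
      have h1 := card_cond (K := Fin n) a (fun σ => E m n (σ b))
        (fun σ π => by simp only [Function.update_of_ne hab.symm])
        (Real.exp (-((1 / ((m : ℝ) + 1)) ^ 2 / 4 * n))) (fun σ => by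
          simp only [E]
          split_ifs with h
          · have := card_bad_le (σ b) (1 / ((m : ℝ) + 1)) (δ m) (by positivity) (hδε m)
              (hsm m n) h
            rw [Fintype.card_fin] at this ⊢
            convert this
          · simp only [card_empty, Nat.cast_zero]; positivity)
      refine le_trans ?_ (h1.trans (mul_le_mul_of_nonneg_right hn (by positivity)))
      refine Nat.cast_le.2 (card_le_card fun σ hσ => ?_)
      simpa [Q] using hσ)
  have hfree : ∀ w : FreeGroup ι, w ≠ 1 → ∀ θ : ℝ, 0 < θ → ∀ᶠ n : ℕ in atTop,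
      ((fixs (FreeGroup.lift (σ n) w)).card : ℝ) ≤ θ * n := by
    intro w hw θ hθ
    obtain ⟨m, hm⟩ := exists_nat_one_div_lt hθ
    filter_upwards [hσ (Sum.inl (⟨w, hw⟩, m))] with n hn
    exact le_trans hn (mul_le_mul_of_nonneg_right hm.le (by positivity))
  refine ⟨σ, hfree, fun ε hε => ?_⟩
  obtain ⟨m, hm⟩ := exists_nat_one_div_lt hε
  refine ⟨δ m, hδ m, ?_⟩
  have h1 : ∀ᶠ n : ℕ in atTop, ∀ j ∈ Finset.Ioo 0 (L m),
      ((fixs (σ n b ^ j)).card : ℝ) ≤ θ m * Fintype.card (Fin n) := by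
    refine (Finset.eventually_all _).2 fun j hj => ?_
    have hj0 : j ≠ 0 := (mem_Ioo.1 hj).1.ne'
    have hne : (FreeGroup.of b : FreeGroup ι) ^ j ≠ 1 := by
      intro h
      exact FreeGroup.of_ne_one b ((pow_eq_one_iff_left hj0).1 h)
    filter_upwards [hfree _ hne (θ m) (hθ m)] with n hn
    simpa using hn
  filter_upwards [h1, hσ (Sum.inr m)] with n hn1 hn2 S B hB hG
  change σ n a ∉ E m n (σ n b) at hn2
  dsimp only [E] at hn2
  rw [if_pos (hai m n _ hn1)] at hn2
  simp only [mem_filter, mem_univ, true_and, not_exists, not_and, not_lt, Fintype.card_fin] at hn2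
  exact (hn2 S B hB hG).trans (mul_le_mul_of_nonneg_right hm.le (by positivity))

end Pool.Agent.P.MP_6ea370_an
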