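import Mathlib
import Pool.Agent.P.MP_6ea370_an.Defs
import Pool.Agent.P.MP_6ea370_an.Model

/-!
General bounds on sofic entropy, and the entropy of the shifts used in the realisation theorem.
-/

namespace Pool.Agent.P.MP_6ea370_an

open Finset Equiv Filter Topology

/-- The normalised logarithm `n⁻¹ log N`. -/
noncomputable def nlog (n N : ℕ) : EReal := (((n : ℝ)⁻¹ : ℝ) : EReal) * ENNReal.log (N : ENNReal)

lemma nlog_pos {n N : ℕ} (hN : N ≠ 0) : nlog n N = ((Real.log N / n : ℝ) : EReal) := by
  have h1 : (N : ENNReal) ≠ 0 := by exact_mod_cast hN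
  have h2 : (N : ENNReal) ≠ ⊤ := ENNReal.natCast_ne_top N
  rw [nlog, ENNReal.log_pos_real h1 h2, ← EReal.coe_mul, ENNReal.toReal_natCast, div_eq_inv_mul]

lemma nlog_zero {n : ℕ} (hn : n ≠ 0) : nlog n 0 = ⊥ := by
  have h : (0 : ℝ) < (n : ℝ)⁻¹ := by positivity
  rw [nlog, Nat.cast_zero, ENNReal.log_zero, EReal.coe_mul_bot_of_pos h]

lemma nlog_zero_left (N : ℕ) : nlog 0 N = 0 := by simp [nlog]

lemma nlog_range (n N : ℕ) : nlog n N = ⊥ ∨ 0 ≤ nlog n N := by
  by_cases hn : n = 0
  · right; rw [hn, nlog_zero_left]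
  by_cases hN : N = 0
  · left; rw [hN, nlog_zero hn]
  · right
    rw [nlog_pos hN]
    have : 0 ≤ Real.log N / n := div_nonneg (Real.log_natCast_nonneg N) (by positivity)
    exact_mod_cast this

lemma nlog_le {n N : ℕ} {c : ℝ} (hc : 0 ≤ c) (h : (N : ℝ) ≤ Real.exp (c * n)) :
    nlog n N ≤ c := by
  by_cases hn : n = 0
  · rw [hn, nlog_zero_left]; exact_mod_cast hc
  by_cases hN : N = 0
  · rw [hN, nlog_zero hn]; exact bot_le
  · rw [nlog_pos hN, EReal.coe_le_coe_iff, div_le_iff₀ (by positivity),
      Real.log_le_iff_le_exp (by positivity)]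
    exact h

lemma le_nlog {n N : ℕ} {c : ℝ} (hn : n ≠ 0) (h : Real.exp (c * n) ≤ N) :
    (c : EReal) ≤ nlog n N := by
  have h0 : (0 : ℝ) < N := (Real.exp_pos _).trans_le h
  have hN : N ≠ 0 := by rintro rfl; simp at h0
  rw [nlog_pos hN, EReal.coe_le_coe_iff, le_div_iff₀ (by positivity), Real.le_log_iff_exp_le h0]
  exact h

section general

variable {G A : Type} [Group G]

lemma soficEntropy_eq (K : ℕ → Type) (π : ∀ n, G → Perm (K n)) (X : Set (G → A)) :
    soficEntropy K π X = ⨅ (F : Finset G) (δ : ℝ) (_ : 0 < δ), limsup (fun n : ℕ =>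
      nlog (Nat.card (K n)) (Nat.card (microstates X (π n) F δ))) atTop := rfl

lemma soficEntropy_le (K : ℕ → Type) (π : ∀ n, G → Perm (K n)) (X : Set (G → A))
    (F : Finset G) (δ : ℝ) (hδ : 0 < δ) (c : EReal)
    (h : ∀ᶠ n in atTop, nlog (Nat.card (K n)) (Nat.card (microstates X (π n) F δ)) ≤ c) :
    soficEntropy K π X ≤ c := by
  rw [soficEntropy_eq]
  exact iInf_le_of_le F (iInf_le_of_le δ (iInf_le_of_le hδ (limsup_le_of_le (h := h))))

lemma le_soficEntropy (K : ℕ → Type) (π : ∀ n, G → Perm (K n)) (X : Set (G → A)) (c : EReal)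
    (h : ∀ (F : Finset G) (δ : ℝ), 0 < δ → ∀ᶠ n in atTop,
      c ≤ nlog (Nat.card (K n)) (Nat.card (microstates X (π n) F δ))) :
    c ≤ soficEntropy K π X := by
  rw [soficEntropy_eq]
  exact le_iInf fun F => le_iInf fun δ => le_iInf fun hδ =>
    le_limsup_of_frequently_le (h F δ hδ).frequently

/-- Sofic entropy is `-∞` or nonnegative. -/
theorem soficEntropy_range (K : ℕ → Type) (π : ∀ n, G → Perm (K n)) (X : Set (G → A)) :
    soficEntropy K π X = ⊥ ∨ 0 ≤ soficEntropy K π X := by
  by_cases h : ∀ (F : Finset G) (δ : ℝ), 0 < δ → ∃ᶠ n in atTop,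
      0 ≤ nlog (Nat.card (K n)) (Nat.card (microstates X (π n) F δ))
  · right
    rw [soficEntropy_eq]
    exact le_iInf fun F => le_iInf fun δ => le_iInf fun hδ =>
      le_limsup_of_frequently_le (h F δ hδ)
  · left
    simp only [not_forall, not_frequently] at h
    obtain ⟨F, δ, hδ, h⟩ := h
    refine le_bot_iff.1 (soficEntropy_le K π X F δ hδ ⊥ ?_)
    filter_upwards [h] with n hn
    exact ((nlog_range _ _).resolve_right hn).le

/-- Sofic entropy over a finite alphabet is not `+∞`. -/
theorem soficEntropy_lt_top [Finite A] (K : ℕ → Type) (hK : ∀ n, Finite (K n))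
    (π : ∀ n, G → Perm (K n)) (X : Set (G → A)) : soficEntropy K π X < ⊤ := by
  refine lt_of_le_of_lt (soficEntropy_le K π X ∅ 1 one_pos ((Nat.card A : ℝ) : EReal)
    (Eventually.of_forall fun n => nlog_le (by positivity) ?_)) (EReal.coe_lt_top _)
  have := hK n
  have h1 : Nat.card (microstates X (π n) ∅ 1) ≤ Nat.card A ^ Nat.card (K n) := by
    rw [← Nat.card_fun]
    exact Finite.card_subtype_le _
  calc (Nat.card (microstates X (π n) ∅ 1) : ℝ) ≤ (Nat.card A : ℝ) ^ Nat.card (K n) := by
        exact_mod_cast h1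
    _ ≤ (Real.exp (Nat.card A)) ^ Nat.card (K n) := by
        apply pow_le_pow_left₀ (by positivity)
        have := Real.add_one_le_exp (Nat.card A : ℝ)
        linarith
    _ = _ := by rw [← Real.exp_nat_mul, mul_comm]

lemma card_subtype_eq {K : Type} [Fintype K] (p : K → Prop) [DecidablePred p] :
    Nat.card {k : K // p k} = (univ.filter p).card := by
  rw [Nat.card_eq_fintype_card, Fintype.card_subtype]

/-- Asymptotically free homomorphisms form a sofic approximation. -/
theorem isSoficApprox_of_hom (K : ℕ → Type) [∀ n, Fintype (K n)] [∀ n, DecidableEq (K n)]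
    (π : ∀ n, G →* Perm (K n)) (hpos : ∀ᶠ n in atTop, Fintype.card (K n) ≠ 0)
    (hfree : ∀ w : G, w ≠ 1 → ∀ θ : ℝ, 0 < θ → ∀ᶠ n : ℕ in atTop,
      ((fixs (π n w)).card : ℝ) ≤ θ * Fintype.card (K n)) :
    IsSoficApprox K (fun n => π n) := by
  refine ⟨fun n => inferInstance, fun s t => ?_, fun s hs => ?_⟩
  · refine tendsto_const_nhds.congr' ?_
    filter_upwards [hpos] with n hn
    rw [proportion, card_subtype_eq, Nat.card_eq_fintype_card]
    simp [hn]
  · rw [Metric.tendsto_nhds]
    intro ε hε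
    filter_upwards [hpos, hfree s hs (ε / 2) (by linarith)] with n hn h
    have hn' : (0 : ℝ) < Fintype.card (K n) := by positivity
    rw [proportion, card_subtype_eq, Nat.card_eq_fintype_card]
    have h1 : ((univ.filter fun k : K n => π n s k ≠ k).card : ℝ) =
        Fintype.card (K n) - (fixs (π n s)).card := by
      have := Finset.card_filter_add_card_filter_not (s := (univ : Finset (K n)))
        (fun k : K n => π n s k = k)
      rw [card_univ] at this
      rw [← this, fixs]
      push_cast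
      ring
    rw [h1, Real.dist_eq, sub_div, div_self hn'.ne']
    have h2 : ((fixs (π n s)).card : ℝ) / Fintype.card (K n) ≤ ε / 2 := by
      rwa [div_le_iff₀ hn']
    have h3 : 0 ≤ ((fixs (π n s)).card : ℝ) / Fintype.card (K n) := by positivity
    rw [abs_lt]
    constructor <;> linarith

/-- The shift defined by a ternary relation between `x g`, `x (g a⁻¹)` and `x (g b⁻¹)`. -/
def Xrel (R : A → A → A → Prop) (a b : G) : Set (G → A) :=
  {x | ∀ g, R (x g) (x (g * a⁻¹)) (x (g * b⁻¹))}

open Classical in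
/-- The window `{1, a⁻¹, b⁻¹}`. -/
noncomputable def win (a b : G) : Finset G := {1, a⁻¹, b⁻¹}

lemma one_mem_win (a b : G) : (1 : G) ∈ win a b := by simp [win]
lemma a_mem_win (a b : G) : a⁻¹ ∈ win a b := by simp [win]
lemma b_mem_win (a b : G) : b⁻¹ ∈ win a b := by simp [win]

theorem isSFT_Xrel [Finite A] (R : A → A → A → Prop) (a b : G) : IsSFT (Xrel R a b) := by
  refine ⟨(Sigma.mk (win a b)) '' {p | ¬ R (p ⟨1, one_mem_win a b⟩) (p ⟨a⁻¹, a_mem_win a b⟩)
    (p ⟨b⁻¹, b_mem_win a b⟩)}, (Set.toFinite _).image _, ?_⟩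
  ext x
  constructor
  · rintro hx t _ ⟨p, hp, rfl⟩ h
    apply hp
    simp only at h
    rw [← h]
    simpa [shift] using hx t⁻¹
  · intro hx g
    by_contra h
    refine hx g⁻¹ ⟨win a b, fun s => shift g⁻¹ x s⟩ ⟨_, ?_, rfl⟩ rfl
    simpa [shift] using h

lemma mem_Xrel {K : Type} (R : A → A → A → Prop) (a b : G) (π : G →* Perm K) (ω : K → A)
    (h : ∀ k, R (ω k) (ω (π a k)) (ω (π b k))) (k : K) :
    (fun s => ω (π s⁻¹ k)) ∈ Xrel R a b := by
  intro g
  simpa using h (π g⁻¹ k)

lemma mem_microstates {K : Type} [Fintype K] (R : A → A → A → Prop) (a b : G) (π : G →* Perm K)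
    (ω : K → A) (h : ∀ k, R (ω k) (ω (π a k)) (ω (π b k))) (F : Finset G) (δ : ℝ) (hδ : 0 < δ) :
    ω ∈ microstates (Xrel R a b) π F δ := by
  classical
  have h1 : ∀ k : K, (fun s : F => ω (π (s : G)⁻¹ k)) ∈ lang (Xrel R a b) F :=
    fun k => ⟨_, mem_Xrel R a b π ω h k, rfl⟩
  simp only [microstates, Set.mem_ofPred_eq]
  rw [card_subtype_eq, filter_true_of_mem fun k _ => h1 k, card_univ, Nat.card_eq_fintype_card]
  have : (0 : ℝ) ≤ Fintype.card K := by positivity
  nlinarith

lemma exists_bad {K : Type} [Fintype K] (R : A → A → A → Prop) (a b : G) (π : G →* Perm K)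
    (ω : K → A) (δ : ℝ) (h : ω ∈ microstates (Xrel R a b) π (win a b) δ) :
    ∃ B : Finset K, (B.card : ℝ) ≤ δ * Fintype.card K ∧
      ∀ k ∉ B, R (ω k) (ω (π a k)) (ω (π b k)) := by
  classical
  simp only [microstates, Set.mem_ofPred_eq] at h
  rw [card_subtype_eq, Nat.card_eq_fintype_card] at h
  refine ⟨univ.filter fun k : K =>
    ¬ ((fun s : win a b => ω (π (s : G)⁻¹ k)) ∈ lang (Xrel R a b) (win a b)), ?_, ?_⟩
  · have := Finset.card_filter_add_card_filter_not (s := (univ : Finset K))
      (fun k : K => (fun s : win a b => ω (π (s : G)⁻¹ k)) ∈ lang (Xrel R a b) (win a b))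
    rw [card_univ] at this
    have h2 := congrArg (Nat.cast : ℕ → ℝ) this
    push_cast at h2
    linarith
  · intro k hk
    simp only [mem_filter, mem_univ, true_and, not_not] at hk
    obtain ⟨x, hx, hx'⟩ := hk
    have e1 := congrFun hx' ⟨1, one_mem_win a b⟩
    have e2 := congrFun hx' ⟨a⁻¹, a_mem_win a b⟩
    have e3 := congrFun hx' ⟨b⁻¹, b_mem_win a b⟩
    simp only [inv_one, map_one, Perm.coe_one, id_eq, inv_inv] at e1 e2 e3
    have := hx 1
    simp only [one_mul] at this
    rwa [e1, e2, e3] at this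

end general

/-- The rule of the shift with `m` free labels. -/
def Rm (m : ℕ) (p q r : Option (Fin m)) : Prop := (p = none ↔ r = none) ∧ (p ≠ none → q = none)

/-- The labellings with support `S`. -/
def labs {K : Type} [Fintype K] [DecidableEq K] (m : ℕ) (S : Finset K) :
    Finset (K → Option (Fin m)) :=
  Fintype.piFinset fun k => if k ∈ S then univ.erase none else {none}

lemma card_labs {K : Type} [Fintype K] [DecidableEq K] (m : ℕ) (S : Finset K) :
    (labs m S).card = m ^ S.card := by
  rw [labs, Fintype.card_piFinset]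
  have : ∀ k : K, (if k ∈ S then (univ : Finset (Option (Fin m))).erase none else {none}).card =
      if k ∈ S then m else 1 := by
    intro k
    split_ifs <;> simp
  simp only [this]
  rw [prod_ite]
  simp

lemma mem_labs {K : Type} [Fintype K] [DecidableEq K] (m : ℕ) (S : Finset K)
    (ω : K → Option (Fin m)) : ω ∈ labs m S ↔ ∀ k, (k ∈ S ↔ ω k ≠ none) := by
  simp only [labs, Fintype.mem_piFinset]
  refine forall_congr' fun k => ?_
  by_cases hk : k ∈ S <;> simp [hk]

lemma ncard_eq {α : Type} [Fintype α] (s : Set α) [DecidablePred (· ∈ s)] :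
    Nat.card s = (univ.filter (· ∈ s)).card := card_subtype_eq _

/-- The entropy of the labelled shift is `u log m`, where `u` is the largest density of an almost
`b`-invariant and almost `a`-independent set. -/
theorem entropy_Rm {G : Type} [Group G] (a b : G) (hb : ∀ j : ℕ, j ≠ 0 → b ^ j ≠ 1)
    (K : ℕ → Type) [∀ n, Fintype (K n)] [∀ n, DecidableEq (K n)]
    (π : ∀ n, G →* Perm (K n)) (hpos : ∀ᶠ n in atTop, Fintype.card (K n) ≠ 0)
    (hfree : ∀ w : G, w ≠ 1 → ∀ θ : ℝ, 0 < θ → ∀ᶠ n : ℕ in atTop,
      ((fixs (π n w)).card : ℝ) ≤ θ * Fintype.card (K n))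
    (u : ℝ) (hu : 0 ≤ u)
    (hup : ∀ ε : ℝ, 0 < ε → ∃ δ : ℝ, 0 < δ ∧ ∀ᶠ n : ℕ in atTop, ∀ S B : Finset (K n),
      (B.card : ℝ) ≤ δ * Fintype.card (K n) → Good (π n a) (π n b) S B →
        (S.card : ℝ) ≤ (u + ε) * Fintype.card (K n))
    (hlow : ∀ ε : ℝ, 0 < ε → ∀ᶠ n : ℕ in atTop, ∃ S : Finset (K n),
      Good (π n a) (π n b) S ∅ ∧ (u - ε) * Fintype.card (K n) ≤ S.card)
    (m : ℕ) (hm : 1 ≤ m) :
    soficEntropy K (fun n => π n) (Xrel (Rm m) a b) = ((u * Real.log m : ℝ) : EReal) := by
  classical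
  have hm0 : (0 : ℝ) < m := by exact_mod_cast hm
  have hlog : 0 ≤ Real.log m := Real.log_natCast_nonneg m
  apply le_antisymm
  · -- upper bound
    have key : ∀ ε : ℝ, 0 < ε → soficEntropy K (fun n => π n) (Xrel (Rm m) a b) ≤
        ((u * Real.log m + ε * (Real.log m + 1) : ℝ) : EReal) := by
      intro ε hε
      obtain ⟨δ1, hδ1, h1⟩ := hup ε hε
      obtain ⟨δ2, θ, L, hδ2, hθ, h2⟩ := almost_inv_count ε hε
      have h3 : ∀ᶠ n : ℕ in atTop, ∀ j ∈ Finset.Ioo 0 L,
          ((fixs (π n b ^ j)).card : ℝ) ≤ θ * Fintype.card (K n) := by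
        refine (Finset.eventually_all _).2 fun j hj => ?_
        filter_upwards [hfree _ (hb j (mem_Ioo.1 hj).1.ne') θ hθ] with n hn
        simpa using hn
      apply soficEntropy_le K _ _ (win a b) (min δ1 δ2) (lt_min hδ1 hδ2)
      filter_upwards [h1, h3] with n hn1 hn3
      apply nlog_le (by positivity)
      rw [ncard_eq, Nat.card_eq_fintype_card]
      set N : ℝ := (Fintype.card (K n) : ℝ) with hN
      have hN0 : 0 ≤ N := by positivity
      set P := univ.filter fun S : Finset (K n) =>
        ((bdry (π n b) S).card : ℝ) ≤ δ2 * N ∧ (S.card : ℝ) ≤ (u + ε) * N with hP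
      have hsub : (univ.filter (· ∈ microstates (Xrel (Rm m) a b) (π n) (win a b) (min δ1 δ2))) ⊆
          P.biUnion fun S => labs m S := by
        intro ω hω
        simp only [mem_filter, mem_univ, true_and] at hω
        obtain ⟨B, hB, hR⟩ := exists_bad _ a b (π n) ω _ hω
        rw [← hN] at hB
        have hG : Good (π n a) (π n b) (univ.filter fun k => ω k ≠ none) B := by
          intro k hk
          have := hR k hk
          simp only [mem_filter, mem_univ, true_and, not_not]
          exact ⟨not_congr this.1, this.2⟩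
        simp only [P, mem_biUnion, mem_filter, mem_univ, true_and]
        refine ⟨univ.filter fun k => ω k ≠ none, ⟨?_, hn1 _ B ?_ hG⟩, ?_⟩
        · have h4 : bdry (π n b) (univ.filter fun k => ω k ≠ none) ⊆ B := by
            intro k hk
            simp only [bdry, mem_filter, mem_univ, true_and] at hk
            by_contra hkB
            exact hk (by simpa using (hG k hkB).1)
          have h5 : ((bdry (π n b) (univ.filter fun k => ω k ≠ none)).card : ℝ) ≤ B.card := by
            exact_mod_cast card_le_card h4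
          exact h5.trans (hB.trans (mul_le_mul_of_nonneg_right (min_le_right _ _) hN0))
        · exact hB.trans (mul_le_mul_of_nonneg_right (min_le_left _ _) hN0)
        · simp [mem_labs]
      have hPc : (P.card : ℝ) ≤ Real.exp (ε * N) := by
        refine le_trans ?_ (h2 (K n) (π n b) hn3)
        refine Nat.cast_le.2 (card_le_card fun S hS => ?_)
        simp only [P, mem_filter, mem_univ, true_and] at hS ⊢
        exact hS.1
      have hterm : ∀ S ∈ P, ((labs m S).card : ℝ) ≤ Real.exp ((u + ε) * N * Real.log m) := by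
        intro S hS
        simp only [P, mem_filter, mem_univ, true_and] at hS
        rw [card_labs, Nat.cast_pow, ← Real.exp_log hm0, ← Real.exp_nat_mul, Real.log_exp]
        exact Real.exp_le_exp.2 (mul_le_mul_of_nonneg_right hS.2 hlog)
      calc _ ≤ ∑ S ∈ P, ((labs m S).card : ℝ) := by
            exact_mod_cast (card_le_card hsub).trans card_biUnion_le
        _ ≤ P.card • Real.exp ((u + ε) * N * Real.log m) := sum_le_card_nsmul _ _ _ hterm
        _ ≤ Real.exp (ε * N) * Real.exp ((u + ε) * N * Real.log m) := by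
            rw [nsmul_eq_mul]
            exact mul_le_mul_of_nonneg_right hPc (by positivity)
        _ = _ := by rw [← Real.exp_add]; congr 1; ring
    apply EReal.le_of_forall_lt_iff_le.1
    intro z hz
    rw [EReal.coe_lt_coe_iff] at hz
    refine (key ((z - u * Real.log m) / (Real.log m + 1)) (div_pos (by linarith) (by linarith))).trans
      (le_of_eq ?_)
    congr 1
    field_simp
    ring
  · -- lower bound
    have key : ∀ ε : ℝ, 0 < ε → ((u * Real.log m - ε * (Real.log m + 1) : ℝ) : EReal) ≤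
        soficEntropy K (fun n => π n) (Xrel (Rm m) a b) := by
      intro ε hε
      apply le_soficEntropy
      intro F δ hδ
      filter_upwards [hpos, hlow ε hε] with n hn ⟨S, hG, hS⟩
      apply le_nlog (by rwa [Nat.card_eq_fintype_card])
      rw [ncard_eq, Nat.card_eq_fintype_card]
      set N : ℝ := (Fintype.card (K n) : ℝ) with hN
      have hN0 : 0 ≤ N := by positivity
      have hsub : labs m S ⊆ univ.filter (· ∈ microstates (Xrel (Rm m) a b) (π n) F δ) := by
        intro ω hω
        rw [mem_labs] at hω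
        simp only [mem_filter, mem_univ, true_and]
        refine mem_microstates _ a b (π n) ω (fun k => ?_) F δ hδ
        have := hG k (notMem_empty k)
        rw [hω, hω, hω] at this
        exact ⟨not_iff_not.1 this.1, fun h => not_not.1 (this.2 h)⟩
      calc _ ≤ Real.exp (S.card * Real.log m) := by
            apply Real.exp_le_exp.2
            have := mul_le_mul_of_nonneg_right hS hlog
            nlinarith
        _ = ((labs m S).card : ℝ) := by
            rw [card_labs, Nat.cast_pow, Real.exp_nat_mul, Real.exp_log hm0]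
        _ ≤ _ := by exact_mod_cast card_le_card hsub
    apply EReal.ge_of_forall_gt_iff_ge.1
    intro z hz
    rw [EReal.coe_lt_coe_iff] at hz
    refine le_trans (le_of_eq ?_)
      (key ((u * Real.log m - z) / (Real.log m + 1)) (div_pos (by linarith) (by linarith)))
    congr 1
    field_simp
    ring

end Pool.Agent.P.MP_6ea370_an
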