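import Mathlib
import Pool.Agent.P.MP_6ea370_an.Entropy

/-!
Mixing the random model with its double cover in a prescribed ratio.
-/

namespace Pool.Agent.P.MP_6ea370_an

open Finset Equiv Filter Topology

/-- Disjoint union of an action with the product of two actions. -/
def mix {G K1 K2 : Type} [Group G] (ρ1 : G →* Perm K1) (ρ2 : G →* Perm K2) (χ : G →* Perm Bool) :
    G →* Perm (K1 ⊕ K2 × Bool) :=
  MonoidHom.mk' (fun g => Equiv.sumCongr (ρ1 g) (Equiv.prodCongr (ρ2 g) (χ g))) (by
    intro g h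
    ext x
    rcases x with x | ⟨x, c⟩ <;> simp)

@[simp] lemma mix_inl {G K1 K2 : Type} [Group G] (ρ1 : G →* Perm K1) (ρ2 : G →* Perm K2)
    (χ : G →* Perm Bool) (g : G) (k : K1) : mix ρ1 ρ2 χ g (Sum.inl k) = Sum.inl (ρ1 g k) := rfl

@[simp] lemma mix_inr {G K1 K2 : Type} [Group G] (ρ1 : G →* Perm K1) (ρ2 : G →* Perm K2)
    (χ : G →* Perm Bool) (g : G) (k : K2) (c : Bool) :
    mix ρ1 ρ2 χ g (Sum.inr (k, c)) = Sum.inr (ρ2 g k, χ g c) := rfl

lemma card_fixs_mix {G K1 K2 : Type} [Group G] [Fintype K1] [Fintype K2] [DecidableEq K1]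
    [DecidableEq K2] (ρ1 : G →* Perm K1) (ρ2 : G →* Perm K2) (χ : G →* Perm Bool) (g : G) :
    (fixs (mix ρ1 ρ2 χ g)).card ≤ (fixs (ρ1 g)).card + (fixs (ρ2 g)).card * 2 := by
  have h : fixs (mix ρ1 ρ2 χ g) ⊆ (fixs (ρ1 g)).disjSum (fixs (ρ2 g) ×ˢ (univ : Finset Bool)) := by
    rintro (k | ⟨k, c⟩) hk
    · simpa [fixs] using hk
    · simp only [fixs, mem_filter, mem_univ, true_and, mix_inr, Sum.inr.injEq,
        Prod.mk.injEq] at hk
      simp [fixs, hk.1]
  simpa using card_le_card h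

lemma Good.two_mul_card_le {K : Type} [Fintype K] [DecidableEq K] {π τ : Perm K} {S B : Finset K}
    (h : Good π τ S B) : 2 * S.card ≤ Fintype.card K + B.card := by
  have h1 : (S \ B).card ≤ Sᶜ.card := by
    apply card_le_card_of_injOn π
    · intro k hk
      simp only [coe_sdiff, Set.mem_sdiff, mem_coe] at hk
      simpa using (h k hk.2).2 hk.1
    · exact π.injective.injOn
  have h2 := le_card_sdiff B S
  have h3 := card_le_univ S
  rw [card_compl] at h1
  omega

section mixlemmas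

variable {G K1 K2 : Type} [Group G] (ρ1 : G →* Perm K1) (ρ2 : G →* Perm K2) (χ : G →* Perm Bool)
  (g h : G)

lemma good_toLeft {S B : Finset (K1 ⊕ K2 × Bool)}
    (hG : Good (mix ρ1 ρ2 χ g) (mix ρ1 ρ2 χ h) S B) : Good (ρ1 g) (ρ1 h) S.toLeft B.toLeft := by
  intro k hk
  have := hG (Sum.inl k) (by simpa using hk)
  simpa using this

lemma card_toRight_le' [Fintype K2] [DecidableEq K2] {S B : Finset (K1 ⊕ K2 × Bool)}
    (hG : Good (mix ρ1 ρ2 χ g) (mix ρ1 ρ2 χ h) S B) :
    2 * S.toRight.card ≤ Fintype.card K2 * 2 + B.toRight.card := by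
  have hG2 : Good (Equiv.prodCongr (ρ2 g) (χ g)) (Equiv.prodCongr (ρ2 h) (χ h))
      S.toRight B.toRight := by
    rintro ⟨k, c⟩ hk
    have := hG (Sum.inr (k, c)) (by simpa using hk)
    simpa using this
  simpa using hG2.two_mul_card_le

lemma exists_good_exact [Fintype K2] (hg : ∀ c, χ g c = !c) (hh : ∀ c, χ h c = c) :
    ∃ S : Finset (K1 ⊕ K2 × Bool), Good (mix ρ1 ρ2 χ g) (mix ρ1 ρ2 χ h) S ∅ ∧
      S.card = Fintype.card K2 := by
  refine ⟨(∅ : Finset K1).disjSum ((univ : Finset K2) ×ˢ {true}), ?_, by simp⟩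
  rintro (k | ⟨k, c⟩) -
  · simp
  · simp only [mix_inr, inr_mem_disjSum, mem_product, mem_univ, mem_singleton, true_and, hg, hh]
    cases c <;> simp

end mixlemmas

variable {ι : Type} [Fintype ι] [DecidableEq ι]

/-- The parity of the exponent of the generator `a`, as an action on `Bool`. -/
def parity (a : ι) : FreeGroup ι →* Perm Bool :=
  FreeGroup.lift fun i => if i = a then Equiv.swap true false else 1

omit [Fintype ι] in
lemma parity_a (a : ι) (c : Bool) : parity a (FreeGroup.of a) c = !c := by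
  cases c <;> simp [parity]

omit [Fintype ι] in
lemma parity_b {a b : ι} (hab : a ≠ b) (c : Bool) : parity a (FreeGroup.of b) c = c := by
  simp [parity, hab.symm]

omit [Fintype ι] [DecidableEq ι] in
lemma of_pow_ne_one (b : ι) (j : ℕ) (hj : j ≠ 0) : (FreeGroup.of b : FreeGroup ι) ^ j ≠ 1 :=
  fun h => FreeGroup.of_ne_one b ((pow_eq_one_iff_left hj).1 h)

/-- Every `u log m` with `0 < u < 1/2` is a sofic entropy value. -/
theorem exists_entropy_mul (a b : ι) (hab : a ≠ b) (u : ℝ) (hu0 : 0 < u) (hu1 : u < 1 / 2)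
    (m : ℕ) (hm : 1 ≤ m) :
    ∃ (K : ℕ → Type) (π : ∀ n, FreeGroup ι → Perm (K n)), IsSoficApprox K π ∧
      soficEntropy K π (Xrel (Rm m) (FreeGroup.of a) (FreeGroup.of b)) =
        ((u * Real.log m : ℝ) : EReal) := by
  obtain ⟨σ, hfree, hsm⟩ := exists_model a b hab
  let n2 : ℕ → ℕ := fun n => ⌊u * n⌋₊
  let n1 : ℕ → ℕ := fun n => n - n2 n * 2
  have h2le : ∀ n : ℕ, (n2 n : ℝ) ≤ u * n := fun n => Nat.floor_le (by positivity)
  have h2ge : ∀ n : ℕ, u * n - 1 ≤ (n2 n : ℝ) := fun n => by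
    have := Nat.lt_floor_add_one (u * n)
    simp only [n2]
    linarith
  have h2n : ∀ n : ℕ, n2 n * 2 ≤ n := fun n => by
    have h1 := h2le n
    have h2 : (0 : ℝ) ≤ n := by positivity
    have : (n2 n : ℝ) * 2 ≤ n := by nlinarith
    exact_mod_cast this
  have h1eq : ∀ n : ℕ, (n1 n : ℝ) = n - n2 n * 2 := fun n => by
    simp only [n1]
    rw [Nat.cast_sub (h2n n)]
    push_cast
    ring
  have h1ge : ∀ n : ℕ, (1 - 2 * u) * n ≤ (n1 n : ℝ) := fun n => by
    rw [h1eq]
    have := h2le n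
    linarith
  have t1 : Tendsto n1 atTop atTop := by
    rw [← tendsto_natCast_atTop_iff (R := ℝ)]
    exact tendsto_atTop_mono h1ge (tendsto_natCast_atTop_atTop.const_mul_atTop (by linarith))
  have t2 : Tendsto n2 atTop atTop :=
    tendsto_nat_floor_atTop.comp (tendsto_natCast_atTop_atTop.const_mul_atTop hu0)
  let K : ℕ → Type := fun n => Fin (n1 n) ⊕ Fin (n2 n) × Bool
  let π : ∀ n, FreeGroup ι →* Perm (K n) := fun n =>
    mix (FreeGroup.lift (σ (n1 n))) (FreeGroup.lift (σ (n2 n))) (parity a)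
  have hcard : ∀ n, Fintype.card (K n) = n := fun n => by
    have := h2n n
    simp only [K, Fintype.card_sum, Fintype.card_fin, Fintype.card_prod, Fintype.card_bool, n1]
    omega
  have hpos : ∀ᶠ n in atTop, Fintype.card (K n) ≠ 0 := by
    filter_upwards [eventually_ne_atTop 0] with n hn
    rwa [hcard]
  have hfree' : ∀ w : FreeGroup ι, w ≠ 1 → ∀ θ : ℝ, 0 < θ → ∀ᶠ n : ℕ in atTop,
      ((fixs (π n w)).card : ℝ) ≤ θ * Fintype.card (K n) := by
    intro w hw θ hθ
    filter_upwards [t1.eventually (hfree w hw θ hθ), t2.eventually (hfree w hw θ hθ)] with n e1 e2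
    have h := card_fixs_mix (FreeGroup.lift (σ (n1 n))) (FreeGroup.lift (σ (n2 n))) (parity a) w
    have h' : ((fixs (π n w)).card : ℝ) ≤ (fixs (FreeGroup.lift (σ (n1 n)) w)).card +
        (fixs (FreeGroup.lift (σ (n2 n)) w)).card * 2 := by exact_mod_cast h
    rw [hcard]
    have := h1eq n
    nlinarith
  refine ⟨K, fun n => π n, isSoficApprox_of_hom K π hpos hfree', ?_⟩
  refine entropy_Rm _ _ (of_pow_ne_one b) K π hpos hfree' u hu0.le ?_ ?_ m hm
  · intro ε hε
    obtain ⟨δ, hδ, h⟩ := hsm (ε / 2) (by linarith)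
    have hu2 : 0 < 1 - 2 * u := by linarith
    refine ⟨min (δ * (1 - 2 * u)) ε, lt_min (by positivity) hε, ?_⟩
    filter_upwards [t1.eventually h] with n hn S B hB hG
    rw [hcard] at hB ⊢
    have hn0 : (0 : ℝ) ≤ n := by positivity
    have hBs : (B.toLeft.card : ℝ) + B.toRight.card = B.card := by
      exact_mod_cast card_toLeft_add_card_toRight
    have hSs : (S.toLeft.card : ℝ) + S.toRight.card = S.card := by
      exact_mod_cast card_toLeft_add_card_toRight
    have hB1 : (B.card : ℝ) ≤ δ * (1 - 2 * u) * n :=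
      hB.trans (mul_le_mul_of_nonneg_right (min_le_left _ _) hn0)
    have hB2 : (B.card : ℝ) ≤ ε * n :=
      hB.trans (mul_le_mul_of_nonneg_right (min_le_right _ _) hn0)
    have p1 : (0 : ℝ) ≤ B.toLeft.card := by positivity
    have p2 : (0 : ℝ) ≤ B.toRight.card := by positivity
    have hG1 : Good (σ (n1 n) a) (σ (n1 n) b) S.toLeft B.toLeft := by
      simpa using good_toLeft _ _ _ _ _ hG
    have e1 : (S.toLeft.card : ℝ) ≤ ε / 2 * n1 n := by
      apply hn _ _ _ hG1
      have := mul_le_mul_of_nonneg_left (h1ge n) hδ.le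
      linarith
    have e2 : 2 * (S.toRight.card : ℝ) ≤ n2 n * 2 + B.toRight.card := by
      have := card_toRight_le' _ _ _ _ _ hG
      rw [Fintype.card_fin] at this
      exact_mod_cast this
    have e3 := h2le n
    have e4 : (n1 n : ℝ) ≤ n := by
      rw [h1eq]
      have : (0 : ℝ) ≤ n2 n := by positivity
      linarith
    have e5 : ε / 2 * n1 n ≤ ε / 2 * n := mul_le_mul_of_nonneg_left e4 (by linarith)
    linarith
  · intro ε hε
    have h0 : ∀ᶠ n : ℕ in atTop, 1 / ε ≤ (n : ℝ) :=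
      tendsto_natCast_atTop_atTop.eventually_ge_atTop _
    filter_upwards [h0] with n hn
    obtain ⟨S, hS1, hS2⟩ := exists_good_exact (FreeGroup.lift (σ (n1 n)))
      (FreeGroup.lift (σ (n2 n))) (parity a) (FreeGroup.of a) (FreeGroup.of b) (parity_a a)
      (parity_b hab)
    refine ⟨S, hS1, ?_⟩
    rw [hcard, hS2, Fintype.card_fin]
    have := h2ge n
    rw [div_le_iff₀ hε] at hn
    nlinarith

/-- The rule of the two-colouring shift. -/
def R2 (p q r : Bool) : Prop := r = p ∧ q ≠ p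

omit [Fintype ι] in
lemma Xrel_R2_nonempty (a b : ι) (hab : a ≠ b) :
    (Xrel R2 (FreeGroup.of a : FreeGroup ι) (FreeGroup.of b)).Nonempty :=
  ⟨_, mem_Xrel R2 _ _ (parity a) id (fun k => by
    cases k <;> simp [R2, parity_a, parity_b hab]) true⟩

/-- A nonempty shift of finite type with sofic entropy `-∞`. -/
theorem exists_entropy_bot (a b : ι) (hab : a ≠ b) :
    ∃ (K : ℕ → Type) (π : ∀ n, FreeGroup ι → Perm (K n)), IsSoficApprox K π ∧
      soficEntropy K π (Xrel R2 (FreeGroup.of a) (FreeGroup.of b)) = ⊥ := by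
  obtain ⟨σ, hfree, hsm⟩ := exists_model a b hab
  refine ⟨fun n => Fin n, fun n => FreeGroup.lift (σ n), ?_, ?_⟩
  · apply isSoficApprox_of_hom (fun n => Fin n) (fun n => FreeGroup.lift (σ n))
    · filter_upwards [eventually_ne_atTop 0] with n hn
      simpa using hn
    · simpa using hfree
  · obtain ⟨δ, hδ, h⟩ := hsm (1 / 3) (by norm_num)
    refine le_bot_iff.1 (soficEntropy_le _ _ _ (win (FreeGroup.of a) (FreeGroup.of b)) δ hδ ⊥ ?_)
    filter_upwards [h, eventually_ne_atTop 0] with n hn hn0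
    have hempty : microstates (Xrel R2 (FreeGroup.of a) (FreeGroup.of b))
        (FreeGroup.lift (σ n)) (win (FreeGroup.of a) (FreeGroup.of b)) δ = ∅ := by
      rw [Set.eq_empty_iff_forall_notMem]
      intro ω hω
      obtain ⟨B, hB, hR⟩ := exists_bad _ _ _ _ ω _ hω
      simp only [Fintype.card_fin, FreeGroup.lift_apply_of, R2] at hB hR
      have hG : ∀ c : Bool, Good (σ n a) (σ n b) (univ.filter fun k => ω k = c) B := by
        intro c k hk
        have := hR k hk
        simp only [mem_filter, mem_univ, true_and]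
        rw [this.1]
        exact ⟨Iff.rfl, fun h1 h2 => this.2 (h2.trans h1.symm)⟩
      have e1 := hn _ B hB (hG true)
      have e2 := hn _ B hB (hG false)
      have e3 := Finset.card_filter_add_card_filter_not (s := (univ : Finset (Fin n)))
        (fun k => ω k = true)
      simp only [card_univ, Fintype.card_fin, Bool.not_eq_true] at e3
      have e4 := congrArg (Nat.cast : ℕ → ℝ) e3
      push_cast at e4
      have : (0 : ℝ) < n := by positivity
      linarith
    rw [hempty]
    rw [Nat.card_of_isEmpty (α := ((∅ : Set (Fin n → Bool)) : Type)), Nat.card_eq_fintype_card,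
      Fintype.card_fin]
    exact (nlog_zero hn0).le

/-- Every nonnegative real is the sofic entropy of a nonempty shift of finite type. -/
theorem exists_entropy_real (a b : ι) (hab : a ≠ b) (h : ℝ) (hh : 0 ≤ h) :
    ∃ (K : ℕ → Type) (π : ∀ n, FreeGroup ι → Perm (K n)) (m : ℕ), IsSoficApprox K π ∧
      soficEntropy K π (Xrel (Rm m) (FreeGroup.of a) (FreeGroup.of b)) = (h : EReal) := by
  rcases hh.eq_or_lt with rfl | hh
  · obtain ⟨K, π, h1, h2⟩ := exists_entropy_mul a b hab (1 / 4) (by norm_num) (by norm_num) 1 le_rfl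
    exact ⟨K, π, 1, h1, by simpa using h2⟩
  · obtain ⟨m, hm⟩ := exists_nat_gt (Real.exp (2 * h))
    have hm0 : (0 : ℝ) < m := (Real.exp_pos _).trans hm
    have hm1 : 1 ≤ m := by exact_mod_cast hm0
    have hlog : 2 * h < Real.log m := (Real.lt_log_iff_exp_lt hm0).2 hm
    have hlog0 : 0 < Real.log m := by linarith
    obtain ⟨K, π, h1, h2⟩ := exists_entropy_mul a b hab (h / Real.log m) (by positivity)
      (by rw [div_lt_iff₀ hlog0]; linarith) m hm1
    refine ⟨K, π, m, h1, ?_⟩
    rw [h2, div_mul_cancel₀ _ hlog0.ne']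

lemma Xrel_Rm_nonempty {G : Type} [Group G] (m : ℕ) (a b : G) : (Xrel (Rm m) a b).Nonempty :=
  ⟨fun _ => none, fun _ => by simp [Rm]⟩

end Pool.Agent.P.MP_6ea370_an
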